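import Pool.Agent.Helper23K9.Q7.Inv
import Pool.Agent.Helper23K9.Q5.Tw

/-!
The Tate conjecture over a double cover of the projective line.
-/

set_option autoImplicit false
set_option linter.all false

open Polynomial IsDedekindDomain WeierstrassCurve WeierstrassCurve.Affine
open scoped Classical IntermediateField

namespace Pool.Agent.Helper23K9.Q7

open Pool.Agent.TH115.GD (Pt act incl rs ak Sep Comp CompInf IsCoc act_act rs_mul act_locConst
  LocTriv exists_conj exists_restrict Preserves LocallyTrivial IsTower preserves)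
open Pool.Agent.Helper7K9.T3 (IsTM IsTC IsInv TateAt)
open Pool.Agent.Helper23K9.Q5 (qtw tw tw_act tw_neg disc_bc)

universe u

section twist

variable {K F Ω : Type u} [Field K] [Field F] [Field Ω] [Algebra K F] [Algebra F Ω] [Algebra K Ω]
  [IsScalarTower K F Ω] {W : WeierstrassCurve K} {r : Ω} {d : K} {ℓ : ℕ}
  (hE : W.Δ ≠ 0) (h2 : (2 : Ω) ≠ 0) (hr : r ^ 2 = algebraMap K Ω d) (hr0 : r ≠ 0)

theorem tw_pos (φ : Ω →ₐ[K] Ω) (e : φ r = r) (P : Pt W Ω) :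
    act (qtw d W) φ (tw hE h2 hr hr0 P) = tw hE h2 hr hr0 (act W φ P) :=
  tw_act hE h2 h2 hr hr0 hr hr0 φ e P

theorem tw_minus (φ : Ω →ₐ[K] Ω) (e : φ r = -r) (P : Pt W Ω) :
    act (qtw d W) φ (tw hE h2 hr hr0 P) = -tw hE h2 hr hr0 (act W φ P) := by
  have hr' : (-r) ^ 2 = algebraMap K Ω d := by rw [neg_sq, hr]
  rw [tw_act hE h2 h2 hr hr0 hr' (neg_ne_zero.2 hr0) φ e P,
    tw_neg hE h2 hr hr0 hr' (neg_ne_zero.2 hr0) rfl]

theorem coc_twist {f : (Ω ≃ₐ[F] Ω) → Pt W Ω} (hf : IsCocOver W r f) :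
    IsCocOver (qtw d W) r (fun σ => tw hE h2 hr hr0 (f σ)) :=
  ⟨hf.lc.comp _, fun σ τ hσ hτ => by
    show tw hE h2 hr hr0 (f (σ * τ)) = tw hE h2 hr hr0 (f σ) +
      act (qtw d W) (rs K σ) (tw hE h2 hr hr0 (f τ))
    rw [hf.mul σ τ hσ hτ, map_add, tw_pos hE h2 hr hr0 (rs K σ) hσ]⟩

theorem inv_twist {c : ℕ → (Ω ≃ₐ[F] Ω) → Pt W Ω} (hi : IsInvOver W r ℓ c) :
    IsInvOver (qtw d W) r ℓ (fun n σ => tw hE h2 hr hr0 (c n σ)) := by
  intro τ hτ
  obtain ⟨m, Q, hQ, h⟩ := hi τ hτ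
  refine ⟨m, fun n => tw hE h2 hr hr0 (Q n), ⟨?_, fun n => ?_⟩, fun n σ σ' hσ hs => ?_⟩
  · show tw hE h2 hr hr0 (Q 0) = 0
    rw [hQ.zero, map_zero]
  · show ℓ • tw hE h2 hr hr0 (Q (n + 1)) = tw hE h2 hr hr0 (Q n)
    rw [← map_nsmul, hQ.mul]
  · show ℓ ^ m • (act (qtw d W) (ak τ) (tw hE h2 hr hr0 (c n σ')) - tw hE h2 hr hr0 (c n σ)) =
      act (qtw d W) (rs K σ) (tw hE h2 hr hr0 (Q n)) - tw hE h2 hr hr0 (Q n)
    rw [tw_pos hE h2 hr hr0 (ak τ) hτ, tw_pos hE h2 hr hr0 (rs K σ) hσ, ← map_sub, ← map_nsmul,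
      h n σ σ' hσ hs, map_sub]

theorem loc_twist {Fv Ω' : Type u} [Field Fv] [Field Ω']
    [Algebra K Fv] [Algebra Fv Ω'] [Algebra K Ω'] [Algebra F Ω'] [IsScalarTower K Fv Ω']
    [IsScalarTower K F Ω'] {f : (Ω ≃ₐ[F] Ω) → Pt W Ω} (hloc : LocTrivOver W r Fv Ω' f) :
    LocTrivOver (qtw d W) r Fv Ω' (fun σ => tw hE h2 hr hr0 (f σ)) := by
  intro ι
  obtain ⟨P, hP⟩ := hloc ι
  have h2' : (2 : Ω') ≠ 0 := by
    intro h
    apply h2
    apply ι.injective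
    rw [map_zero, map_ofNat, h]
  have hr' : (ι r) ^ 2 = algebraMap K Ω' d := by
    rw [← map_pow, hr, IsScalarTower.algebraMap_apply K F Ω, ι.commutes,
      ← IsScalarTower.algebraMap_apply]
  have hr0' : ι r ≠ 0 := (_root_.map_ne_zero ι).2 hr0
  refine ⟨tw hE h2' hr' hr0' P, fun τ σ hσ h => ?_⟩
  have hτ : rs K τ (ι r) = ι r := by
    show τ (ι r) = ι r
    rw [h, hσ]
  show act (qtw d W) (ι.restrictScalars K) (tw hE h2 hr hr0 (f σ)) =
    act (qtw d W) (rs K τ) (tw hE h2' hr' hr0' P) - tw hE h2' hr' hr0' P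
  rw [tw_act hE h2 h2' hr hr0 hr' hr0' (ι.restrictScalars K) rfl, hP τ σ hσ h, map_sub,
    tw_act hE h2' h2' hr' hr0' hr' hr0' (rs K τ) hτ]

/-- Twice a class is the sum of the corestrictions. -/
theorem two_eq {t : Ω ≃ₐ[F] Ω} (S : Sg r t) (f : (Ω ≃ₐ[F] Ω) → Pt W Ω) {σ : Ω ≃ₐ[F] Ω}
    (hσ : σ r = r) : cor W r t f σ + (tw hE h2 hr hr0).symm
      (cor (qtw d W) r t (fun σ => tw hE h2 hr hr0 (f σ)) σ) = 2 • f σ := by
  rw [cor_pos hσ, cor_pos hσ]
  show f σ + act W (rs K t) (f (t⁻¹ * σ * t)) + (tw hE h2 hr hr0).symm (tw hE h2 hr hr0 (f σ) +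
    act (qtw d W) (rs K t) (tw hE h2 hr hr0 (f (t⁻¹ * σ * t)))) = 2 • f σ
  rw [tw_minus hE h2 hr hr0 (rs K t) S.neg, ← map_neg (tw hE h2 hr hr0), ← map_add,
    AddEquiv.symm_apply_apply, two_nsmul]
  abel

/-- The point over an extension `L` of `K` which contains a root `g` of `d`. -/
theorem pt_over' {L : Type u} [Field L] [Algebra K L] (v : L →ₐ[K] Ω) (g : L) (hg : v g = r)
    (P : Pt W K) (P' : Pt (qtw d W) K) (n : ℕ) : ∃ PL : Pt W L,
    act W v PL = n • (act W (incl K K Ω) P +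
      (tw hE h2 hr hr0).symm (act (qtw d W) (incl K K Ω) P')) := by
  have hvi : Function.Injective v := RingHom.injective (v : L →+* Ω)
  have hg2 : g ^ 2 = algebraMap K L d := by
    apply hvi
    rw [map_pow, hg, hr, AlgHom.commutes]
  have hg0 : g ≠ 0 := by
    rintro rfl
    exact hr0 (by rw [← hg, map_zero])
  have h2' : (2 : L) ≠ 0 := by
    intro h
    apply h2
    have h1 := congrArg v h
    rw [map_zero, map_ofNat] at h1
    exact h1
  have e1 : ∀ X : Pt W L, act (qtw d W) v (tw hE h2' hg2 hg0 X) =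
      tw hE h2 hr hr0 (act W v X) := fun X =>
    tw_act hE h2' h2 hg2 hg0 hr hr0 v hg X
  have e2 : ∀ (V : WeierstrassCurve K) (Y : Pt V K), act V v (act V (incl K K L) Y) =
      act V (incl K K Ω) Y := by
    intro V Y
    have h1 : v.comp (incl K K L) = incl K K Ω := AlgHom.ext fun x => v.commutes x
    rw [act_act, h1]
  refine ⟨n • (act W (incl K K L) P +
    (tw hE h2' hg2 hg0).symm (act (qtw d W) (incl K K L) P')), ?_⟩
  rw [map_nsmul, map_add, e2]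
  congr 2
  apply (tw hE h2 hr hr0).injective
  rw [← e1, AddEquiv.apply_symm_apply, AddEquiv.apply_symm_apply, e2]

/-- The point over `K(r)`. -/
theorem pt_over (P : Pt W K) (P' : Pt (qtw d W) K) (n : ℕ) : ∃ PL : Pt W K⟮r⟯,
    act W K⟮r⟯.val PL = n • (act W (incl K K Ω) P +
      (tw hE h2 hr hr0).symm (act (qtw d W) (incl K K Ω) P')) :=
  pt_over' hE h2 hr hr0 K⟮r⟯.val (IntermediateField.AdjoinSimple.gen K r)
    (IntermediateField.AdjoinSimple.coe_gen K r) P P' n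

end twist

section main

variable {k k' K F : Type} [Field k] [Field k'] [Algebra k k'] [Field K] [Algebra k[X] K]
    [Field F] [Algebra k'[X] F] [IsFractionRing k'[X] F] [Algebra K F]

theorem lt_cor {W : WeierstrassCurve K} {r : Sep F} {t : Sep F ≃ₐ[F] Sep F}
    {f : (Sep F ≃ₐ[F] Sep F) → Pt W (Sep F)} (hf : IsCocOver W r f) (S : Sg r t)
    (h : LocallyTrivialOver k' W r f) : LocallyTrivial k' W (cor W r t f) :=
  ⟨fun v => loc_cor hf S (h.1 v) IsSepClosed.lift, loc_cor hf S h.2 IsSepClosed.lift⟩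

/-- **The Tate conjecture over a double cover of the projective line.** -/
theorem tate_over (hT : IsTower k k' K F) (h2k : (2 : k) ≠ 0) {ℓ : ℕ} (hℓ : Odd ℓ)
    {W : WeierstrassCurve K} (hE : W.Δ ≠ 0) {d : K} {r : Sep F}
    (hr : r ^ 2 = algebraMap K (Sep F) d) (hrF : ∀ x : F, algebraMap F (Sep F) x ≠ r)
    (h1 : TateAt (F := F) ℓ k' W) (hd1 : TateAt (F := F) ℓ k' (qtw d W)) : TateOver ℓ k' W r := by
  haveI := hT.sep
  haveI := hT.fracK
  have hpres : Preserves K F (Sep F) := preserves hT.map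
  have h2 : (2 : Sep F) ≠ 0 := by
    have h2K : (2 : K) ≠ 0 := by
      have : (2 : K) = algebraMap k[X] K (C 2) := by rw [map_ofNat, map_ofNat]
      rw [this, Ne, map_eq_zero_iff _ (IsFractionRing.injective k[X] K)]
      exact C_ne_zero.2 h2k
    have : (2 : Sep F) = algebraMap K (Sep F) 2 := (map_ofNat _ _).symm
    rw [this]
    exact (_root_.map_ne_zero _).2 h2K
  have hr0 : r ≠ 0 := by
    rintro rfl
    exact hrF 0 (map_zero _)
  have hne : r ≠ -r := by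
    intro h
    have h3 : (2 : Sep F) * r = 0 := by
      rw [two_mul]
      nth_rewrite 1 [h]
      exact neg_add_cancel r
    exact (mul_ne_zero h2 hr0) h3
  have hK : ∀ τ : Sep F ≃ₐ[K] Sep F, τ r = r ∨ τ r = -r := by
    intro τ
    apply sq_eq_sq_iff_eq_or_eq_neg.1
    rw [← map_pow, hr, τ.commutes]
  have hpm : ∀ σ : Sep F ≃ₐ[F] Sep F, σ r = r ∨ σ r = -r := by
    intro σ
    apply sq_eq_sq_iff_eq_or_eq_neg.1
    rw [← map_pow, hr, IsScalarTower.algebraMap_apply K F (Sep F), σ.commutes]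
  obtain ⟨t, ht⟩ : ∃ t : Sep F ≃ₐ[F] Sep F, t r = -r := by
    by_contra hcon
    push Not at hcon
    have h3 : ∀ σ : Sep F ≃ₐ[F] Sep F, σ r = r := fun σ => (hpm σ).resolve_right (hcon σ)
    obtain ⟨x, hx⟩ := (InfiniteGalois.mem_range_algebraMap_iff_fixed r).2 h3
    exact hrF x hx
  have S : Sg r t := ⟨hpm, hne, ht⟩
  intro c hc h0 hm hloc hi n
  have hA : ∀ n, IsCocOver (qtw d W) r (fun σ => tw hE h2 hr hr0 (c n σ)) :=
    fun n => coc_twist hE h2 hr hr0 (hc n)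
  have hA0 : ∀ σ : Sep F ≃ₐ[F] Sep F, σ r = r → tw hE h2 hr hr0 (c 0 σ) = 0 := fun σ hσ => by
    rw [h0 σ hσ, map_zero]
  have hAm : ∀ n (σ : Sep F ≃ₐ[F] Sep F), σ r = r →
      ℓ • tw hE h2 hr hr0 (c (n + 1) σ) = tw hE h2 hr hr0 (c n σ) := fun n σ hσ => by
    rw [← map_nsmul, hm n σ hσ]
  have hAi := inv_twist (ℓ := ℓ) hE h2 hr hr0 hi
  obtain ⟨P, R, hR, hcR⟩ := h1 _ (tc_cor (ℓ := ℓ) S hc h0 hm) (fun n => lt_cor (hc n) S (hloc n))
    (inv_cor hpres S hK hc h0 hm hi) n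
  obtain ⟨P', R', hR', hcR'⟩ := hd1 _ (tc_cor (ℓ := ℓ) S hA hA0 hAm)
    (fun n => lt_cor (hA n) S ⟨fun v => loc_twist hE h2 hr hr0 ((hloc n).1 v),
      loc_twist hE h2 hr hr0 (hloc n).2⟩)
    (inv_cor hpres S hK hA hA0 hAm hAi) n
  obtain ⟨j, hj⟩ := hℓ.pow (n := n)
  obtain ⟨PL, hPL⟩ := pt_over hE h2 hr hr0 P P' (j + 1)
  have h0c : ∀ n (σ : Sep F ≃ₐ[F] Sep F), σ r = r → ℓ ^ n • c n σ = 0 := by
    intro n
    induction n with
    | zero => intro σ hσ; rw [pow_zero, one_smul, h0 σ hσ]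
    | succ n ih => intro σ hσ; rw [pow_succ, mul_smul, hm n σ hσ, ih σ hσ]
  unfold FromPoint
  refine ⟨PL, (j + 1) • (R + (tw hE h2 hr hr0).symm R'), ?_, fun σ hσ => ?_⟩
  · rw [hPL, smul_comm, smul_add, hR, ← map_nsmul, hR']
  · have e1 := two_eq hE h2 hr hr0 S (c n) hσ
    have e2 : cor W r t (c n) σ = act W (rs K σ) R - R := hcR σ
    have e3 : cor (qtw d W) r t (fun σ => tw hE h2 hr hr0 (c n σ)) σ =
        act (qtw d W) (rs K σ) R' - R' := hcR' σ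
    have e4 : (tw hE h2 hr hr0).symm (act (qtw d W) (rs K σ) R') =
        act W (rs K σ) ((tw hE h2 hr hr0).symm R') := by
      apply (tw hE h2 hr hr0).injective
      rw [AddEquiv.apply_symm_apply, ← tw_pos hE h2 hr hr0 (rs K σ) hσ,
        AddEquiv.apply_symm_apply]
    rw [e2, e3, map_sub, e4] at e1
    have e5 : c n σ = (j + 1) • (2 • c n σ) := by
      rw [smul_smul]
      have e6 : (j + 1) * 2 = (2 * j + 1) + 1 := by ring
      rw [e6, add_smul, ← hj, h0c n σ hσ, zero_add, one_smul]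
    rw [e5, ← e1, map_nsmul, ← smul_sub, map_add]
    congr 1
    abel

end main

end Pool.Agent.Helper23K9.Q7
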