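import Pool.Agent.Helper23K9.Q7.Dens
import Pool.Agent.Helper23K9.Q7.Main
import Pool.Agent.Helper23K9.Q6.Out
import Pool.Agent.Helper70K9.TN.Almost1

/-!
# The Tate conjecture at 3 over hyperelliptic curves
-/

set_option autoImplicit false
set_option linter.all false

open Polynomial IsDedekindDomain WeierstrassCurve WeierstrassCurve.Affine NumberField
open scoped Classical IntermediateField

namespace Pool.Agent.Helper23K9.Q7

open Pool.Agent.TH115.GD (IsTower Sep)
open Pool.Agent.Helper7K9.T3 (TateAt crv3)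
open Pool.Agent.Helper23K9.Q3 (bad3)
open Pool.Agent.Helper23K9.Q4 (NonSq NoThree TateD twD critD not_sq)
open Pool.Agent.Helper23K9.Q6 (MostInPencils most_pencils)
open Pool.Agent.Helper70K9.TN (TateCovers3 almost_covers)
open Pool.Agent.R939.EI (polA)

section app

variable {k k' K F : Type} [Field k] [Field k'] [Algebra k k'] [Field K] [Algebra k[X] K]
    [Field F] [Algebra k'[X] F] [IsFractionRing k'[X] F] [Algebra K F]

/-- The Tate conjecture at 3 for the elliptic surface over the curve `C` with the function field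
`K(r)`, `r ^ 2 = D(t)`, with the generic fibre `y² + a x y + b y = x³`. -/
def TateC (k' K F : Type) [Field k'] [Field K] [Algebra k[X] K] [Field F]
    [Algebra k'[X] F] [IsFractionRing k'[X] F] [Algebra K F] (a b D : k[X]) : Prop :=
  ∀ r : Sep F, r ^ 2 = algebraMap K (Sep F) (algebraMap k[X] K D) →
    TateOver 3 k' (crv3 (algebraMap k[X] K a) (algebraMap k[X] K b)) r

/-- The Tate conjecture at 3 for the elliptic surface over the projective line with the generic fibre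
`y² + a x y + b y = x³`. -/
def TateP (k' K F : Type) [Field k'] [Field K] [Algebra k[X] K] [Field F]
    [Algebra k'[X] F] [IsFractionRing k'[X] F] [Algebra K F] (a b : k[X]) : Prop :=
  TateAt (F := F) 3 k' (crv3 (algebraMap k[X] K a) (algebraMap k[X] K b))

/-- The Jacobian of the hyperelliptic curve `s ^ 2 = D(t)` has no point of order three over `k(z)`. -/
def NoThreeOver {k k' : Type} [Field k] [Field k'] [Algebra k k'] (z : k') (D : k[X]) : Prop :=
  NoThree (D.map (algebraMap k (IntermediateField.adjoin k {z})))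

theorem tateC_of (hT : IsTower k k' K F) (h2 : (2 : k) ≠ 0) {a b D : k[X]} (hbad : bad3 a b ≠ 0)
    (hD : Odd D.natDegree) (h1 : TateAt (F := F) 3 k' (crv3 (algebraMap k[X] K a)
      (algebraMap k[X] K b))) (hd : TateD k' K F a b D) : TateC k' K F a b D := by
  haveI := hT.fracK
  intro r hr
  have hE : (crv3 (algebraMap k[X] K a) (algebraMap k[X] K b)).Δ ≠ 0 := by
    have e : (crv3 (algebraMap k[X] K a) (algebraMap k[X] K b)).Δ =
        algebraMap k[X] K (b ^ 2 * bad3 a b) := by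
      unfold bad3
      simp only [crv3, WeierstrassCurve.Δ, WeierstrassCurve.b₂, WeierstrassCurve.b₄,
        WeierstrassCurve.b₆, WeierstrassCurve.b₈, map_mul, map_sub, map_pow, map_ofNat]
      ring
    rw [e, Ne, map_eq_zero_iff _ (IsFractionRing.injective k[X] K)]
    exact mul_ne_zero (pow_ne_zero 2 (left_ne_zero_of_mul hbad)) hbad
  refine tate_over hT h2 (by decide) hE hr (fun x hx => ?_) h1 hd.1
  have h3 : x ^ 2 = algebraMap k'[X] F (D.map (algebraMap k k')) := by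
    apply (algebraMap F (Sep F)).injective
    rw [map_pow, hx, hr, ← hT.map, ← IsScalarTower.algebraMap_apply K F (Sep F)]
  exact not_sq (by rw [natDegree_map]; exact hD) x h3

/-- The criterion. -/
theorem crit_curve (hT : IsTower k k' K F) (h2 : (2 : k) ≠ 0) (h3 : (3 : k) ≠ 0) {a b : k[X]}
    (hbad : bad3 a b ≠ 0) (hsep : ∀ π : k[X], Irreducible π → π ∣ bad3 a b → π.Separable)
    (h1 : TateAt (F := F) 3 k' (crv3 (algebraMap k[X] K a) (algebraMap k[X] K b))) {D : k[X]}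
    (hD : Odd D.natDegree) (hDs : D.Separable) {z : k'} (hz : z ^ 2 + z + 1 = 0)
    (hb : NonSq a b D z)
    (hno : NoThree (D.map (algebraMap k (IntermediateField.adjoin k {z})))) :
    TateC k' K F a b D :=
  tateC_of hT h2 hbad hD h1 (critD hT h2 h3 hbad hsep hD hDs hz hb hno)

/-- The polynomial with the coefficients `x`. -/
noncomputable def pol [NumberField k] {n : ℕ} (x : Fin n → 𝓞 k) : k[X] :=
  ∑ i, C (algebraMap (𝓞 k) k (x i)) * X ^ (i : ℕ)

/-- The coordinates of the `x i` with respect to the integral basis `B` are in `[-H, H]`. -/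
def InBox [NumberField k] {J : Type} [Fintype J] (B : Module.Basis J ℤ (𝓞 k)) (H : ℕ) {n : ℕ}
    (x : Fin n → 𝓞 k) : Prop := ∀ i j, |B.repr (x i) j| ≤ (H : ℤ)

/-- For almost all `(a, b)`, `a` of degree at most `r`, `b` of degree at most `m`, the Tate conjecture
at 3 holds for the elliptic surface over the curve `s ^ 2 = D(t)` with generic fibre
`y² + a x y + b y = x³`, and for the elliptic surface over the projective line with generic fibre
the quadratic twist by `D`, of which the group of the rational points is uniquely divisible by three. -/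
def MostSurfaces [NumberField k] {J : Type} [Fintype J] (k' K F : Type) [Field k'] [Field K]
    [Algebra k[X] K] [Field F] [Algebra k'[X] F] [IsFractionRing k'[X] F] [Algebra K F]
    (B : Module.Basis J ℤ (𝓞 k)) (r m : ℕ) (D : k[X]) : Prop :=
  ∀ η : ℝ, 0 < η → ∃ H₀ : ℕ, ∀ H : ℕ, H₀ ≤ H →
    (({x : (Fin (r + 1) → 𝓞 k) × (Fin (m + 1) → 𝓞 k) | (InBox B H x.1 ∧ InBox B H x.2) ∧
      ¬ (TateC k' K F (pol x.1) (pol x.2) D ∧ TateD k' K F (pol x.1) (pol x.2) D)}.ncard : ℕ) : ℝ) ≤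
      η * (2 * H + 1) ^ (Fintype.card J * (r + 1 + (m + 1)))

/-- For almost all members `D` of the pencils of cubic polynomials the Tate conjecture at 3 holds for
the elliptic surface over the elliptic curve `s ^ 2 = D(t)`. -/
def MostCovers [NumberField k] {J : Type} [Fintype J] (k' K F : Type) [Field k'] [Field K]
    [Algebra k[X] K] [Field F] [Algebra k'[X] F] [IsFractionRing k'[X] F] [Algebra K F]
    (B : Module.Basis J ℤ (𝓞 k)) (a b : k[X]) (c : 𝓞 k) : Prop :=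
  ∀ η : ℝ, 0 < η → ∃ H₀ : ℕ, ∀ H : ℕ, H₀ ≤ H → ∀ a₁ a₂ : 𝓞 k,
    (({t : 𝓞 k | (∀ j, |B.repr t j| ≤ (H : ℤ)) ∧
      ¬ TateC k' K F a b (C (algebraMap (𝓞 k) k c) * X ^ 3 + C (algebraMap (𝓞 k) k a₂) * X ^ 2 +
        C (algebraMap (𝓞 k) k a₁) * X + C (algebraMap (𝓞 k) k t))}.ncard : ℕ) : ℝ) ≤
      η * (2 * H + 1) ^ Fintype.card J

variable [NumberField k] {J : Type} [Fintype J] (B : Module.Basis J ℤ (𝓞 k))

theorem boxfin1 (H : ℕ) (P : 𝓞 k → Prop) :
    {t : 𝓞 k | (∀ j, |B.repr t j| ≤ (H : ℤ)) ∧ P t}.Finite := by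
  refine Set.Finite.subset (s := {t : 𝓞 k | ∀ j, |B.repr t j| ≤ (H : ℤ)}) ?_ fun t ht => ht.1
  refine Set.Finite.of_finite_image (f := fun t => (B.repr t : J → ℤ)) ?_ ?_
  · refine Set.Finite.subset (Set.Finite.pi' fun _ : J => Set.finite_Icc (-(H : ℤ)) (H : ℤ)) ?_
    rintro _ ⟨t, ht, rfl⟩ j
    exact abs_le.1 (ht j)
  · intro s _ t _ h
    exact B.repr.injective (DFunLike.coe_injective h)

theorem boxfin2 {r m : ℕ} (H : ℕ) (P : (Fin (r + 1) → 𝓞 k) × (Fin (m + 1) → 𝓞 k) → Prop) :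
    {x : (Fin (r + 1) → 𝓞 k) × (Fin (m + 1) → 𝓞 k) |
      ((∀ i j, |B.repr (x.1 i) j| ≤ (H : ℤ)) ∧ ∀ i j, |B.repr (x.2 i) j| ≤ (H : ℤ)) ∧
        P x}.Finite := by
  have h0 : {t : 𝓞 k | ∀ j, |B.repr t j| ≤ (H : ℤ)}.Finite := by
    have := boxfin1 B H fun _ => True
    simpa using this
  refine Set.Finite.subset ((Set.Finite.pi' fun _ : Fin (r + 1) => h0).prod
    (Set.Finite.pi' fun _ : Fin (m + 1) => h0)) ?_
  rintro x ⟨⟨h1, h2⟩, -⟩
  exact ⟨fun i => h1 i, fun i => h2 i⟩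

theorem most_covers (hT : IsTower k k' K F) {a b : k[X]} (hbad : bad3 a b ≠ 0)
    (h1 : TateAt (F := F) 3 k' (crv3 (algebraMap k[X] K a) (algebraMap k[X] K b))) {c : 𝓞 k}
    (hc : c ≠ 0) : MostCovers k' K F B a b c := by
  intro η hη
  obtain ⟨H0, hH⟩ := most_pencils B hT hbad hc η hη
  refine ⟨H0, fun H hHH a₁ a₂ => le_trans ?_ (hH H hHH a₁ a₂)⟩
  have hsub : {t : 𝓞 k | (∀ j, |B.repr t j| ≤ (H : ℤ)) ∧
      ¬ TateC k' K F a b (C (algebraMap (𝓞 k) k c) * X ^ 3 + C (algebraMap (𝓞 k) k a₂) * X ^ 2 +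
        C (algebraMap (𝓞 k) k a₁) * X + C (algebraMap (𝓞 k) k t))} ⊆
      {t : 𝓞 k | (∀ j, |B.repr t j| ≤ (H : ℤ)) ∧
      ¬ TateD k' K F a b (C (algebraMap (𝓞 k) k c) * X ^ 3 + C (algebraMap (𝓞 k) k a₂) * X ^ 2 +
        C (algebraMap (𝓞 k) k a₁) * X + C (algebraMap (𝓞 k) k t))} := by
    rintro t ⟨ht, hn⟩
    refine ⟨ht, fun hd => hn (tateC_of hT two_ne_zero hbad ?_ h1 hd)⟩
    have hc' : algebraMap (𝓞 k) k c ≠ 0 := by
      rw [Ne, FaithfulSMul.algebraMap_eq_zero_iff]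
      exact hc
    have h3 : (C (algebraMap (𝓞 k) k c) * X ^ 3 + C (algebraMap (𝓞 k) k a₂) * X ^ 2 +
        C (algebraMap (𝓞 k) k a₁) * X + C (algebraMap (𝓞 k) k t)).natDegree = 3 :=
      natDegree_cubic hc'
    rw [h3]
    decide
  exact_mod_cast Set.ncard_le_ncard hsub (boxfin1 B H _)

theorem most_surfaces (hT : IsTower k k' K F) {r m : ℕ} (hm1 : 1 ≤ m) (hm3 : m ≠ 3)
    (hN : 4 ≤ max (3 * r) m) {D : k[X]} (hD : Odd D.natDegree) (hDs : D.Separable) {z : k'}
    (hz : z ^ 2 + z + 1 = 0)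
    (hno : NoThree (D.map (algebraMap k (IntermediateField.adjoin k {z})))) :
    MostSurfaces k' K F B r m D := by
  intro η hη
  have hDn : ∀ (c : k) (g : k[X]), D ≠ C c * g ^ 2 := by
    rintro c g rfl
    rcases eq_or_ne c 0 with rfl | hc
    · simp at hD
    · rw [natDegree_C_mul hc, natDegree_pow] at hD
      exact (Nat.not_odd_iff_even.2 (even_two_mul _)) hD
  obtain ⟨H1, h1⟩ := count_nonSq B (r := r) hm1 hDn hz (half_pos hη)
  obtain ⟨H2, h2⟩ := almost_covers (r := r) (m := m) hT B hm1 hm3 hN (half_pos hη)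
  refine ⟨max H1 H2, fun H hHH => ?_⟩
  have e1 := h1 H ((le_max_left _ _).trans hHH)
  have e2 := h2 H ((le_max_right _ _).trans hHH)
  have hsub : {x : (Fin (r + 1) → 𝓞 k) × (Fin (m + 1) → 𝓞 k) |
      (InBox B H x.1 ∧ InBox B H x.2) ∧ ¬ (TateC k' K F (pol x.1) (pol x.2) D ∧
        TateD k' K F (pol x.1) (pol x.2) D)} ⊆
      {x : (Fin (r + 1) → 𝓞 k) × (Fin (m + 1) → 𝓞 k) |
      ((∀ j t, |B.repr (x.1 j) t| ≤ (H : ℤ)) ∧ ∀ j t, |B.repr (x.2 j) t| ≤ (H : ℤ)) ∧
      ¬ (bad3 (polA fun j => algebraMap (𝓞 k) k (x.1 j))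
        (polA fun j => algebraMap (𝓞 k) k (x.2 j)) ≠ 0 ∧
        NonSq (polA fun j => algebraMap (𝓞 k) k (x.1 j))
        (polA fun j => algebraMap (𝓞 k) k (x.2 j)) D z)} ∪
      {x : (Fin (r + 1) → 𝓞 k) × (Fin (m + 1) → 𝓞 k) |
      ((∀ j t, |B.repr (x.1 j) t| ≤ (H : ℤ)) ∧ ∀ j t, |B.repr (x.2 j) t| ≤ (H : ℤ)) ∧
      ¬ TateCovers3 k' K F (polA fun j => algebraMap (𝓞 k) k (x.1 j))
        (polA fun j => algebraMap (𝓞 k) k (x.2 j))} := by
    rintro x ⟨hx, hn⟩
    by_contra hcon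
    obtain ⟨hbad, hns⟩ : bad3 (polA fun j => algebraMap (𝓞 k) k (x.1 j))
        (polA fun j => algebraMap (𝓞 k) k (x.2 j)) ≠ 0 ∧
        NonSq (polA fun j => algebraMap (𝓞 k) k (x.1 j))
        (polA fun j => algebraMap (𝓞 k) k (x.2 j)) D z := by
      by_contra h
      exact hcon (Or.inl ⟨hx, h⟩)
    have c2 : TateCovers3 k' K F (polA fun j => algebraMap (𝓞 k) k (x.1 j))
        (polA fun j => algebraMap (𝓞 k) k (x.2 j)) := by
      by_contra h
      exact hcon (Or.inr ⟨hx, h⟩)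
    have h3 := c2.2 1 (by decide)
    rw [pow_one, comp_X, comp_X] at h3
    apply hn
    have hd : TateD k' K F (polA fun j => algebraMap (𝓞 k) k (x.1 j))
        (polA fun j => algebraMap (𝓞 k) k (x.2 j)) D :=
      critD hT two_ne_zero three_ne_zero hbad (fun π hπ _ => hπ.separable) hD hDs hz hns hno
    exact ⟨tateC_of hT two_ne_zero hbad hD h3 hd, hd⟩
  have e3 := (Set.ncard_le_ncard hsub ((boxfin2 B H _).union (boxfin2 B H _))).trans
    (Set.ncard_union_le _ _)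
  have e4 : (({x : (Fin (r + 1) → 𝓞 k) × (Fin (m + 1) → 𝓞 k) |
      (InBox B H x.1 ∧ InBox B H x.2) ∧ ¬ (TateC k' K F (pol x.1) (pol x.2) D ∧
        TateD k' K F (pol x.1) (pol x.2) D)}.ncard : ℕ) : ℝ) ≤ _ :=
    Nat.cast_le.2 e3
  refine e4.trans ?_
  rw [Nat.cast_add]
  refine (add_le_add e1 e2).trans (le_of_eq ?_)
  ring

end app

end Pool.Agent.Helper23K9.Q7
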