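import Pool.Agent.Helper23K9.Q7.Defs
import Pool.Agent.Helper23K9.Q5.Rk0
import Pool.Agent.Helper7K9.T3.Step

/-!
The corestriction.
-/

set_option autoImplicit false
set_option linter.all false

open Polynomial IsDedekindDomain WeierstrassCurve WeierstrassCurve.Affine
open scoped Classical IntermediateField

namespace Pool.Agent.Helper23K9.Q7

open Pool.Agent.TH115.GD (Pt act incl rs ak Sep Comp CompInf IsCoc act_act rs_mul act_locConst
  LocTriv exists_conj exists_restrict Preserves LocallyTrivial)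
open Pool.Agent.Helper7K9.T3 (IsTM IsTC IsInv)
open Pool.Agent.W309.TD (locConst_apply)

universe u

section cor

variable {K F Ω : Type u} [Field K] [Field F] [Field Ω] [Algebra K F] [Algebra F Ω] [Algebra K Ω]
  [IsScalarTower K F Ω] (W : WeierstrassCurve K) (r : Ω)

/-- The corestriction, with the representative `t` of the nontrivial coset. -/
noncomputable def cor (t : Ω ≃ₐ[F] Ω) (f : (Ω ≃ₐ[F] Ω) → Pt W Ω) (σ : Ω ≃ₐ[F] Ω) : Pt W Ω :=
  if σ r = r then f σ + act W (rs K t) (f (t⁻¹ * σ * t))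
  else f (σ * t) + act W (rs K t) (f (t⁻¹ * σ))

variable {W r}

theorem cor_pos {t : Ω ≃ₐ[F] Ω} {f : (Ω ≃ₐ[F] Ω) → Pt W Ω} {σ : Ω ≃ₐ[F] Ω} (h : σ r = r) :
    cor W r t f σ = f σ + act W (rs K t) (f (t⁻¹ * σ * t)) := if_pos h

theorem cor_neg {t : Ω ≃ₐ[F] Ω} {f : (Ω ≃ₐ[F] Ω) → Pt W Ω} {σ : Ω ≃ₐ[F] Ω} (h : ¬ σ r = r) :
    cor W r t f σ = f (σ * t) + act W (rs K t) (f (t⁻¹ * σ)) := if_neg h

theorem am (σ τ : Ω ≃ₐ[F] Ω) (X : Pt W Ω) :
    act W (rs K (σ * τ)) X = act W (rs K σ) (act W (rs K τ) X) := by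
  rw [act_act]
  rfl

theorem a1 (X : Pt W Ω) : act W (rs K (1 : Ω ≃ₐ[F] Ω)) X = X := by
  rcases X with _ | ⟨x, y, h⟩
  · rfl
  · obtain ⟨h', e⟩ := Pool.Agent.TH115.GD.act_some W (rs K (1 : Ω ≃ₐ[F] Ω)) h
    rw [e]
    rfl

/-- The sign of an automorphism. -/
structure Sg (r : Ω) (t : Ω ≃ₐ[F] Ω) : Prop where
  pm : ∀ σ : Ω ≃ₐ[F] Ω, σ r = r ∨ σ r = -r
  ne : r ≠ -r
  neg : t r = -r

theorem inv_pos {σ : Ω ≃ₐ[F] Ω} (h : σ r = r) : σ⁻¹ r = r := by
  nth_rewrite 1 [← h]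
  rw [← AlgEquiv.mul_apply, inv_mul_cancel, AlgEquiv.one_apply]

theorem inv_neg' {σ : Ω ≃ₐ[F] Ω} (h : σ r = -r) : σ⁻¹ r = -r := by
  have h1 : σ⁻¹ (σ r) = r := by rw [← AlgEquiv.mul_apply, inv_mul_cancel, AlgEquiv.one_apply]
  rw [h, map_neg] at h1
  rw [← neg_neg (σ⁻¹ r), h1]

namespace Sg

variable {t : Ω ≃ₐ[F] Ω} (S : Sg r t)

include S

theorem neg_of {σ : Ω ≃ₐ[F] Ω} (h : ¬ σ r = r) : σ r = -r := (S.pm σ).resolve_left h

theorem not_pos {σ : Ω ≃ₐ[F] Ω} (h : σ r = -r) : ¬ σ r = r := fun h' => S.ne (h'.symm.trans h)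

theorem other {s : Ω ≃ₐ[F] Ω} (h : s r = -r) : Sg r s := ⟨S.pm, S.ne, h⟩

theorem nr : ¬ t r = r := S.not_pos S.neg

end Sg

theorem mul_pp {σ τ : Ω ≃ₐ[F] Ω} (h : σ r = r) (h' : τ r = r) : (σ * τ) r = r := by
  rw [AlgEquiv.mul_apply, h', h]

theorem mul_pn {σ τ : Ω ≃ₐ[F] Ω} (h : σ r = r) (h' : τ r = -r) : (σ * τ) r = -r := by
  rw [AlgEquiv.mul_apply, h', map_neg, h]

theorem mul_np {σ τ : Ω ≃ₐ[F] Ω} (h : σ r = -r) (h' : τ r = r) : (σ * τ) r = -r := by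
  rw [AlgEquiv.mul_apply, h', h]

theorem mul_nn {σ τ : Ω ≃ₐ[F] Ω} (h : σ r = -r) (h' : τ r = -r) : (σ * τ) r = r := by
  rw [AlgEquiv.mul_apply, h', map_neg, h, neg_neg]

variable {t : Ω ≃ₐ[F] Ω} {f : (Ω ≃ₐ[F] Ω) → Pt W Ω}

/-- The corestriction of a cocycle is a cocycle. -/
theorem IsCocOver.cor [IsGalois F Ω] (hf : IsCocOver W r f) (S : Sg r t) :
    IsCoc W (cor W r t f) := by
  refine ⟨?_, fun σ τ => ?_⟩
  · have h1 : IsLocallyConstant fun σ : Ω ≃ₐ[F] Ω => σ r := locConst_apply (K := F) r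
    have h2 : IsLocallyConstant fun σ : Ω ≃ₐ[F] Ω => f (t⁻¹ * σ * t) :=
      hf.lc.comp_continuous (by fun_prop)
    have h3 : IsLocallyConstant fun σ : Ω ≃ₐ[F] Ω => f (σ * t) :=
      hf.lc.comp_continuous (by fun_prop)
    have h4 : IsLocallyConstant fun σ : Ω ≃ₐ[F] Ω => f (t⁻¹ * σ) :=
      hf.lc.comp_continuous (by fun_prop)
    rw [IsLocallyConstant.iff_exists_open]
    intro σ
    obtain ⟨U0, o0, m0, e0⟩ := (IsLocallyConstant.iff_exists_open _).1 hf.lc σ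
    obtain ⟨U1, o1, m1, e1⟩ := (IsLocallyConstant.iff_exists_open _).1 h1 σ
    obtain ⟨U2, o2, m2, e2⟩ := (IsLocallyConstant.iff_exists_open _).1 h2 σ
    obtain ⟨U3, o3, m3, e3⟩ := (IsLocallyConstant.iff_exists_open _).1 h3 σ
    obtain ⟨U4, o4, m4, e4⟩ := (IsLocallyConstant.iff_exists_open _).1 h4 σ
    refine ⟨U0 ∩ (U1 ∩ (U2 ∩ (U3 ∩ U4))), o0.inter (o1.inter (o2.inter (o3.inter o4))),
      ⟨m0, m1, m2, m3, m4⟩, fun τ hτ => ?_⟩
    obtain ⟨n0, n1, n2, n3, n4⟩ := hτ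
    have q0 := e0 τ n0
    have q1 := e1 τ n1
    have q2 := e2 τ n2
    have q3 := e3 τ n3
    have q4 := e4 τ n4
    unfold Q7.cor
    rw [q0, q1, q2, q3, q4]
  · have ht := S.neg
    have hti := inv_neg' ht
    have hpp := hf.mul
    by_cases hσ : σ r = r
    · by_cases hτ : τ r = r
      · rw [cor_pos (mul_pp hσ hτ), cor_pos hσ, cor_pos hτ, hpp σ τ hσ hτ]
        have e1 : t⁻¹ * (σ * τ) * t = (t⁻¹ * σ * t) * (t⁻¹ * τ * t) := by group
        rw [e1, hpp _ _ (mul_nn (mul_np hti hσ) ht) (mul_nn (mul_np hti hτ) ht)]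
        have e2 : t * (t⁻¹ * σ * t) = σ * t := by group
        rw [map_add, map_add, ← am, e2, am]
        abel
      · have hτ' := S.neg_of hτ
        rw [cor_neg (S.not_pos (mul_pn hσ hτ')), cor_pos hσ, cor_neg hτ]
        have e1 : σ * τ * t = σ * (τ * t) := by group
        have e2 : t⁻¹ * (σ * τ) = (t⁻¹ * σ * t) * (t⁻¹ * τ) := by group
        rw [e1, e2, hpp _ _ hσ (mul_nn hτ' ht), hpp _ _ (mul_nn (mul_np hti hσ) ht)
          (mul_nn hti hτ')]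
        have e3 : t * (t⁻¹ * σ * t) = σ * t := by group
        rw [map_add, map_add, ← am, e3, am]
        abel
    · have hσ' := S.neg_of hσ
      by_cases hτ : τ r = r
      · rw [cor_neg (S.not_pos (mul_np hσ' hτ)), cor_neg hσ, cor_pos hτ]
        have e1 : σ * τ * t = (σ * t) * (t⁻¹ * τ * t) := by group
        have e2 : t⁻¹ * (σ * τ) = (t⁻¹ * σ) * τ := by group
        rw [e1, e2, hpp _ _ (mul_nn hσ' ht) (mul_nn (mul_np hti hτ) ht), hpp _ _
          (mul_nn hti hσ') hτ]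
        have e3 : t * (t⁻¹ * σ) = σ := by group
        rw [map_add, map_add, ← am, ← am, e3]
        abel
      · have hτ' := S.neg_of hτ
        rw [cor_pos (mul_nn hσ' hτ'), cor_neg hσ, cor_neg hτ]
        have e1 : σ * τ = (σ * t) * (t⁻¹ * τ) := by group
        have e2 : t⁻¹ * (σ * τ) * t = (t⁻¹ * σ) * (τ * t) := by group
        rw [e2, e1, hpp _ _ (mul_nn hσ' ht) (mul_nn hti hτ'), hpp _ _
          (mul_nn hti hσ') (mul_nn hτ' ht)]
        have e3 : t * (t⁻¹ * σ) = σ := by group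
        rw [map_add, map_add, ← am, ← am, e3]
        abel

/-- The change of the representative. -/
theorem cor_rep (hf : IsCocOver W r f) (S : Sg r t) {s : Ω ≃ₐ[F] Ω} (hs : s r = -r)
    (g : Ω ≃ₐ[F] Ω) : cor W r s f g = cor W r t f g +
      (act W (rs K g) (act W (rs K t) (f (t⁻¹ * s))) - act W (rs K t) (f (t⁻¹ * s))) := by
  have ht := S.neg
  have hti := inv_neg' ht
  have hsi := inv_neg' hs
  obtain ⟨h, hh⟩ : ∃ h, h = t⁻¹ * s := ⟨_, rfl⟩
  have hr : h r = r := by rw [hh]; exact mul_nn hti hs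
  have hir : h⁻¹ r = r := inv_pos hr
  have es : s = t * h := by rw [hh]; group
  rw [← hh]
  have h1 : f 1 = 0 := by
    have := hf.mul 1 1 rfl rfl
    rw [mul_one, a1] at this
    have h2 : f 1 + 0 = f 1 + f 1 := by rw [add_zero]; exact this
    exact (add_left_cancel h2).symm
  have hinv : act W (rs K h) (f h⁻¹) = -f h := by
    have := hf.mul h h⁻¹ hr hir
    rw [mul_inv_cancel, h1] at this
    exact (neg_eq_of_add_eq_zero_right this.symm).symm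
  by_cases hg : g r = r
  · rw [cor_pos hg, cor_pos hg]
    have hx : (t⁻¹ * g * t) r = r := mul_nn (mul_np hti hg) ht
    have e1 : s⁻¹ * g * s = h⁻¹ * ((t⁻¹ * g * t) * h) := by rw [es]; group
    rw [e1, hf.mul _ _ hir (mul_pp hx hr), hf.mul _ _ hx hr, es, am, map_add (act W (rs K h)), hinv,
      ← am h h⁻¹, mul_inv_cancel, a1, map_add, map_add, map_neg, ← am t (t⁻¹ * g * t)]
    have e2 : t * (t⁻¹ * g * t) = g * t := by group
    rw [e2, am]
    abel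
  · have hg' := S.neg_of hg
    rw [cor_neg hg, cor_neg hg]
    have hx : (t⁻¹ * g) r = r := mul_nn hti hg'
    have hy : (g * t) r = r := mul_nn hg' ht
    have e1 : s⁻¹ * g = h⁻¹ * (t⁻¹ * g) := by rw [es]; group
    have e2 : g * s = (g * t) * h := by rw [es]; group
    rw [e1, e2, hf.mul _ _ hir hx, hf.mul _ _ hy hr, es, am t h, map_add (act W (rs K h)), hinv,
      ← am h h⁻¹, mul_inv_cancel, a1, map_add, map_neg, am g t]
    abel

end cor

section loc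

variable {K F Ω Fv Ω' : Type u} [Field K] [Field F] [Field Ω] [Field Fv] [Field Ω']
  [Algebra K F] [Algebra F Ω] [Algebra K Ω] [IsScalarTower K F Ω]
  [Algebra K Fv] [Algebra F Fv] [IsScalarTower K F Fv]
  [Algebra Fv Ω'] [Algebra K Ω'] [Algebra F Ω'] [IsScalarTower K Fv Ω'] [IsScalarTower F Fv Ω']
  [IsScalarTower K F Ω'] {W : WeierstrassCurve K} {r : Ω} {t : Ω ≃ₐ[F] Ω}
  {f : (Ω ≃ₐ[F] Ω) → Pt W Ω}

/-- The corestriction of a locally trivial class is locally trivial. -/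
theorem loc_cor (hf : IsCocOver W r f) (S : Sg r t) (hloc : LocTrivOver W r Fv Ω' f)
    (ι : Ω →ₐ[F] Ω') : LocTriv W Fv Ω' (cor W r t f) := by
  have ac : ∀ (σ : Ω ≃ₐ[F] Ω) (X : Pt W Ω), act W (ι.restrictScalars K) (act W (rs K σ) X) =
      act W ((ι.restrictScalars K).comp (rs K σ)) X := fun σ X => act_act W _ _ X
  have ex : ∀ (τ : Ω' ≃ₐ[Fv] Ω') (σ : Ω ≃ₐ[F] Ω), (∀ x, τ (ι x) = ι (σ x)) → ∀ X : Pt W Ω,
      act W (ι.restrictScalars K) (act W (rs K σ) X) =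
      act W (rs K τ) (act W (ι.restrictScalars K) X) := by
    intro τ σ h X
    have h1 : (ι.restrictScalars K).comp (rs K σ) = (rs K τ).comp (ι.restrictScalars K) :=
      AlgHom.ext fun x => (h x).symm
    rw [act_act, act_act, h1]
  have hmul : ∀ (τ τ' : Ω' ≃ₐ[Fv] Ω') (σ σ' : Ω ≃ₐ[F] Ω), (∀ x, τ (ι x) = ι (σ x)) →
      (∀ x, τ' (ι x) = ι (σ' x)) → ∀ x, (τ * τ') (ι x) = ι ((σ * σ') x) := by
    intro τ τ' σ σ' h h' x
    rw [AlgEquiv.mul_apply, h', h, AlgEquiv.mul_apply]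
  have hinv : ∀ (τ : Ω' ≃ₐ[Fv] Ω') (σ : Ω ≃ₐ[F] Ω), (∀ x, τ (ι x) = ι (σ x)) →
      ∀ x, τ⁻¹ (ι x) = ι (σ⁻¹ x) := by
    intro τ σ h x
    have h1 := h (σ⁻¹ x)
    rw [← AlgEquiv.mul_apply σ, mul_inv_cancel, AlgEquiv.one_apply] at h1
    rw [← h1, ← AlgEquiv.mul_apply, inv_mul_cancel, AlgEquiv.one_apply]
  obtain ⟨P, hP⟩ := hloc ι
  by_cases hns : ∃ (τ0 : Ω' ≃ₐ[Fv] Ω') (s : Ω ≃ₐ[F] Ω), (∀ x, τ0 (ι x) = ι (s x)) ∧ ¬ s r = r
  · obtain ⟨τ0, s, h0, hs⟩ := hns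
    have hs' := S.neg_of hs
    refine ⟨ι, P + act W (rs K τ0) P - act W (ι.restrictScalars K)
      (act W (rs K t) (f (t⁻¹ * s))), fun τ σ h => ?_⟩
    have e0 : cor W r t f σ = cor W r s f σ -
        (act W (rs K σ) (act W (rs K t) (f (t⁻¹ * s))) - act W (rs K t) (f (t⁻¹ * s))) := by
      rw [cor_rep hf S hs' σ]
      abel
    have e1 : act W (ι.restrictScalars K) (cor W r s f σ) =
        act W (rs K τ) (P + act W (rs K τ0) P) - (P + act W (rs K τ0) P) := by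
      by_cases hσ : σ r = r
      · have h2 := hP (τ0⁻¹ * τ * τ0) (s⁻¹ * σ * s)
          (mul_nn (mul_np (inv_neg' hs') hσ) hs')
          (hmul _ _ _ _ (hmul _ _ _ _ (hinv _ _ h0) h) h0)
        rw [cor_pos hσ, map_add, hP τ σ hσ h, ex τ0 s h0, h2, map_sub, ← am τ0]
        have e3 : τ0 * (τ0⁻¹ * τ * τ0) = τ * τ0 := by group
        rw [e3, am, map_add]
        abel
      · have hσ' := S.neg_of hσ
        have h2 := hP (τ * τ0) (σ * s) (mul_nn hσ' hs') (hmul _ _ _ _ h h0)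
        have h3 := hP (τ0⁻¹ * τ) (s⁻¹ * σ) (mul_nn (inv_neg' hs') hσ')
          (hmul _ _ _ _ (hinv _ _ h0) h)
        rw [cor_neg hσ, map_add, h2, ex τ0 s h0, h3, map_sub, ← am τ0]
        have e3 : τ0 * (τ0⁻¹ * τ) = τ := by group
        rw [e3, am, map_add]
        abel
    rw [e0, map_sub, e1, map_sub, ex τ σ h, map_sub (act W (rs K τ))]
    abel
  · push Not at hns
    obtain ⟨P1, hP1⟩ := hloc (ι.comp t.toAlgHom)
    refine ⟨ι, P + P1, fun τ σ h => ?_⟩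
    have hσ := hns τ σ h
    have h2 := hP1 τ (t⁻¹ * σ * t) (mul_nn (mul_np (inv_neg' S.neg) hσ) S.neg) (by
      intro x
      show τ (ι (t x)) = ι (t ((t⁻¹ * σ * t) x))
      rw [h, ← AlgEquiv.mul_apply t, ← AlgEquiv.mul_apply σ]
      congr 2
      group)
    have e2 : act W ((ι.comp t.toAlgHom).restrictScalars K) (f (t⁻¹ * σ * t)) =
        act W (ι.restrictScalars K) (act W (rs K t) (f (t⁻¹ * σ * t))) := by
      rw [act_act]
      rfl
    rw [e2] at h2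
    rw [cor_pos hσ, map_add, hP τ σ hσ h, h2, map_add]
    abel

end loc

end Pool.Agent.Helper23K9.Q7
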