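import Pool.Agent.Helper7K9.T3.Defs

/-!
# The Tate conjecture for elliptic surfaces over double covers of the projective line: definitions

`k` is a field, `k'` a separable closure of `k`, `K = k(t)`, `F = k'(t)`, `r` an element of a separable
closure `Sep F` of `F` which is quadratic over `K`, so that `K(r)` and `F(r)` are the function fields
of a double cover `C` of the projective line over `k` and over `k'`. This file has the definition of
the Tate conjecture at a prime `ℓ` for the elliptic surface over the curve `C` which is the pullback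
of the elliptic surface over the projective line with generic fibre `W` over `K` (for classes over `F`
itself these are the definitions of `Pool.Agent.TH115.GD.Defs` and `Pool.Agent.Helper7K9.T3.Defs`).

The Galois group of `Sep F` over `F(r)` is the group of the `σ` in `Gal(Sep F / F)` with `σ r = r`. All
cochains are functions on `Gal(Sep F / F)` of which only the values on this open subgroup matter.
-/

set_option autoImplicit false
set_option linter.all false

open Polynomial IsDedekindDomain WeierstrassCurve WeierstrassCurve.Affine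
open scoped Classical IntermediateField

namespace Pool.Agent.Helper23K9.Q7

open Pool.Agent.TH115.GD (Pt act incl rs ak Sep Comp CompInf)
open Pool.Agent.Helper7K9.T3 (IsTM)

universe u

section cocycles

variable {K F Ω : Type u} [Field K] [Field F] [Field Ω] [Algebra K F] [Algebra F Ω] [Algebra K Ω]
  [IsScalarTower K F Ω] (W : WeierstrassCurve K) (r : Ω)

/-- The restriction of `f` to `Gal(Ω / F(r))` is a continuous cocycle with values in the discrete
group `W(Ω)`. (A locally constant function on the open subgroup `Gal(Ω / F(r))` can be continued by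
zero to a locally constant function on `Gal(Ω / F)`.) -/
structure IsCocOver (f : (Ω ≃ₐ[F] Ω) → Pt W Ω) : Prop where
  lc : IsLocallyConstant f
  mul : ∀ σ τ, σ r = r → τ r = r → f (σ * τ) = f σ + act W (rs K σ) (f τ)

/-- The class of `c` in `H ^ 1 (F(r), V_ℓ W)` is fixed by `Gal(Ω / K(r))`: for each `τ` in
`Gal(Ω / K(r))` there is an `m` such that `ℓ ^ m (τ c - c)` is the coboundary of an element `Q` of the
Tate module. Here `(τ c) (σ) = τ (c (σ'))` with `σ' = τ⁻¹ σ τ`. -/
def IsInvOver (ℓ : ℕ) (c : ℕ → (Ω ≃ₐ[F] Ω) → Pt W Ω) : Prop :=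
  ∀ τ : Ω ≃ₐ[K] Ω, τ r = r → ∃ (m : ℕ) (Q : ℕ → Pt W Ω), IsTM ℓ W Q ∧
    ∀ (n : ℕ) (σ σ' : Ω ≃ₐ[F] Ω), σ r = r → (∀ x, τ (σ' x) = σ (τ x)) →
      ℓ ^ m • (act W (ak τ) (c n σ') - c n σ) = act W (rs K σ) (Q n) - Q n

/-- `Fv` is the completion of `F` at a place `v`, and `Ω'` a separable closure of `Fv`. The
restriction of the class of `f` to the completion of `F(r)` at every place above `v` is trivial.
These places are given by the embeddings `ι : Ω → Ω'` over `F`: the completion is `Fv(ι r)`, and its
Galois group consists of the `τ` in `Gal(Ω' / Fv)` with `τ (ι r) = ι r`, that is, of those which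
induce a `σ` with `σ r = r` on `Ω`. -/
def LocTrivOver (Fv Ω' : Type u) [Field Fv] [Field Ω'] [Algebra K Fv]
    [Algebra Fv Ω'] [Algebra K Ω'] [Algebra F Ω'] [IsScalarTower K Fv Ω'] [IsScalarTower K F Ω']
    (f : (Ω ≃ₐ[F] Ω) → Pt W Ω) : Prop :=
  ∀ ι : Ω →ₐ[F] Ω', ∃ P : Pt W Ω', ∀ (τ : Ω' ≃ₐ[Fv] Ω') (σ : Ω ≃ₐ[F] Ω), σ r = r →
    (∀ x, τ (ι x) = ι (σ x)) →
      act W (ι.restrictScalars K) (f σ) = act W (rs K τ) P - P

end cocycles

section stmt

variable {K F : Type} [Field K] [Field F] [Algebra K F]

/-- The class of `f` is trivial at all the places of `F(r)`: those above the maximal ideals of `k'[t]`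
and above the place `t = ∞`. -/
def LocallyTrivialOver (k' : Type) [Field k'] [Algebra k'[X] F] [IsFractionRing k'[X] F]
    (W : WeierstrassCurve K) (r : Sep F) (f : (Sep F ≃ₐ[F] Sep F) → Pt W (Sep F)) : Prop :=
  (∀ v : HeightOneSpectrum k'[X],
    LocTrivOver W r (Comp k'[X] F v) (Sep (Comp k'[X] F v)) f) ∧
  LocTrivOver W r (CompInf k' F) (Sep (CompInf k' F)) f

/-- `f` is the cocycle of order `ℓ ^ n` which is given by a point of `W(L)`, for an extension `L` of `K`
with an embedding `v` in `Sep F`: there are a point `P` of `W(L)` and a point `R` with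
`ℓ ^ n R = P` such that `f σ = σ R - R` for all `σ` in `Gal(Sep F / F(r))`. -/
def FromPoint (ℓ n : ℕ) (W : WeierstrassCurve K) (r : Sep F) {L : Type} [Field L] [Algebra K L]
    (v : L →ₐ[K] Sep F) (f : (Sep F ≃ₐ[F] Sep F) → Pt W (Sep F)) : Prop :=
  ∃ (P : Pt W L) (R : Pt W (Sep F)), ℓ ^ n • R = act W v P ∧
    ∀ σ : Sep F ≃ₐ[F] Sep F, σ r = r → f σ = act W (rs K σ) R - R

/-- The Tate conjecture at the prime `ℓ` for the elliptic surface with generic fibre `W` over the
curve with the function field `K(r)`: the classes in the `ℓ`-adic Selmer group `V_ℓ Sel(W / F(r))`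
which are fixed by the Galois group come from `W(K(r))`. If `c` is a cocycle of `Gal(Sep F / F(r))`
with values in `T_ℓ W` which is trivial at all places of `F(r)`, and the class of `c` is fixed by
`Gal(Sep F / K(r))`, then for every `n` there are a point `P` of `W(K(r))` and a point `R` with
`ℓ ^ n R = P` such that `c n σ = σ R - R` for all `σ` in `Gal(Sep F / F(r))`. -/
def TateOver (ℓ : ℕ) (k' : Type) [Field k'] [Algebra k'[X] F] [IsFractionRing k'[X] F]
    (W : WeierstrassCurve K) (r : Sep F) : Prop :=
  ∀ c : ℕ → (Sep F ≃ₐ[F] Sep F) → Pt W (Sep F), (∀ n, IsCocOver W r (c n)) →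
    (∀ σ, σ r = r → c 0 σ = 0) → (∀ n σ, σ r = r → ℓ • c (n + 1) σ = c n σ) →
    (∀ n, LocallyTrivialOver k' W r (c n)) → IsInvOver W r ℓ c →
    ∀ n, FromPoint ℓ n W r K⟮r⟯.val (c n)

end stmt

end Pool.Agent.Helper23K9.Q7
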