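import Pool.Agent.Helper23K9.Q4.Crit

/-!
Squares in the field generated by a third root of unity and an element.
-/

set_option autoImplicit false
set_option linter.all false

open Polynomial
open scoped Classical IntermediateField

namespace Pool.Agent.Helper23K9.Q7

open Pool.Agent.Helper23K9.Q3 (bad3)
open Pool.Agent.Helper23K9.Q4 (NonSq)

theorem lin_of_mem {M k' : Type} [Field M] [Field k'] [Algebra M k'] {z y : k'}
    (hz : z ^ 2 + z + 1 = 0) (hy : y ∈ M⟮z⟯) :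
    ∃ u v : M, y = algebraMap M k' u * z + algebraMap M k' v := by
  have hq : (X ^ 2 + X + 1 : M[X]).Monic := by monicity!
  have hr : aeval z (X ^ 2 + X + 1 : M[X]) = 0 := by
    simp only [map_add, map_pow, aeval_X, map_one]
    exact hz
  have hint : IsIntegral M z := ⟨_, hq, by rw [← aeval_def]; exact hr⟩
  have h1 : y ∈ (M⟮z⟯).toSubalgebra := hy
  rw [IntermediateField.adjoin_simple_toSubalgebra_of_isAlgebraic hint.isAlgebraic,
    Algebra.adjoin_singleton_eq_range_aeval] at h1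
  obtain ⟨p, hp⟩ := h1
  have h2 : aeval z (p %ₘ (X ^ 2 + X + 1)) = aeval z p :=
    aeval_modByMonic_eq_self_of_root hr
  have hd2 : (X ^ 2 + X + 1 : M[X]).degree = 2 := by
    compute_degree!
  have h3 : (p %ₘ (X ^ 2 + X + 1)).degree ≤ 1 := by
    have h4 := degree_modByMonic_lt p hq
    rw [hd2] at h4
    exact Order.le_of_lt_succ h4
  have h5 := eq_X_add_C_of_degree_le_one h3
  refine ⟨(p %ₘ (X ^ 2 + X + 1)).coeff 1, (p %ₘ (X ^ 2 + X + 1)).coeff 0, ?_⟩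
  have h6 : (aeval z : M[X] →ₐ[M] k') p = y := hp
  rw [← h6, ← h2]
  conv_lhs => rw [h5]
  rw [map_add, map_mul, aeval_C, aeval_C, aeval_X]

theorem sq_adj {k k' : Type} [Field k] [Field k'] [Algebra k k'] {z θ δ y : k'}
    (hz : z ^ 2 + z + 1 = 0) (hδ : δ ∈ k⟮θ⟯) (hy : y ∈ IntermediateField.adjoin k {z, θ})
    (hyd : y ^ 2 = δ) : ∃ w ∈ k⟮θ⟯, w ^ 2 = δ ∨ w ^ 2 = -3 * δ := by
  have hy1 : y ∈ (k⟮θ⟯)⟮z⟯ := by
    have h1 := IntermediateField.adjoin_simple_adjoin_simple k θ z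
    rw [Set.pair_comm, ← h1] at hy
    exact hy
  obtain ⟨u, v, huv⟩ := lin_of_mem hz hy1
  have hu : algebraMap k⟮θ⟯ k' u ∈ k⟮θ⟯ := u.2
  have hv : algebraMap k⟮θ⟯ k' v ∈ k⟮θ⟯ := v.2
  obtain ⟨U, hU⟩ : ∃ U, U = algebraMap k⟮θ⟯ k' u := ⟨_, rfl⟩
  obtain ⟨V, hV⟩ : ∃ V, V = algebraMap k⟮θ⟯ k' v := ⟨_, rfl⟩
  rw [← hU] at hu huv
  rw [← hV] at hv huv
  have e1 : (2 * U * V - U ^ 2) * z = δ - (V ^ 2 - U ^ 2) := by
    rw [← hyd, huv]
    linear_combination (-U ^ 2) * hz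
  by_cases h0 : 2 * U * V - U ^ 2 = 0
  · have h1 : U * (2 * V - U) = 0 := by linear_combination h0
    rcases mul_eq_zero.1 h1 with h2 | h2
    · refine ⟨V, hv, Or.inl ?_⟩
      rw [h2, zero_mul, zero_add] at huv
      rw [← huv, hyd]
    · refine ⟨3 * V, mul_mem (by exact_mod_cast natCast_mem k⟮θ⟯ 3) hv, Or.inr ?_⟩
      have h3 : U = 2 * V := by linear_combination -h2
      rw [h0, zero_mul] at e1
      rw [h3] at e1
      linear_combination (-3) * e1
  · have hz1 : z ∈ k⟮θ⟯ := by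
      have h1 : z = (δ - (V ^ 2 - U ^ 2)) / (2 * U * V - U ^ 2) := by
        rw [eq_div_iff h0]
        linear_combination e1
      rw [h1]
      have h2m : (2 : k') ∈ k⟮θ⟯ := by exact_mod_cast natCast_mem k⟮θ⟯ 2
      exact div_mem (sub_mem hδ (sub_mem (pow_mem hv 2) (pow_mem hu 2)))
        (sub_mem (mul_mem (mul_mem h2m hu) hv) (pow_mem hu 2))
    refine ⟨y, ?_, Or.inl hyd⟩
    rw [huv]
    exact add_mem (mul_mem hu hz1) hv

/-- `NonSq` in terms of the irreducible factors. -/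
theorem nonSq_of {k k' : Type} [Field k] [Field k'] [Algebra k k'] {a b D : k[X]} {z : k'}
    (hbad : bad3 a b ≠ 0)
    (hz : z ^ 2 + z + 1 = 0) (h : ∀ π : k[X], Irreducible π → π ∣ bad3 a b → ∀ r : k[X],
      ¬ π ∣ D - r ^ 2 ∧ ¬ π ∣ C (-3) * D - r ^ 2) : NonSq a b D z := by
  intro θ hθ h0 x hx he
  have hint : IsIntegral k θ := by
    rw [← isAlgebraic_iff_isIntegral]
    exact ⟨_, hbad, hθ⟩
  have hirr := minpoly.irreducible hint
  have hdv : minpoly k θ ∣ bad3 a b := minpoly.dvd k θ hθ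
  have hmem : ∀ p : k[X], aeval θ p ∈ k⟮θ⟯ := fun p => by
    have h1 : aeval θ p ∈ Algebra.adjoin k {θ} := aeval_mem_adjoin_singleton k θ
    exact (IntermediateField.algebra_adjoin_le_adjoin k {θ}) h1
  have hget : ∀ w ∈ k⟮θ⟯, ∃ g : k[X], aeval θ g = w := by
    intro w hw
    have h1 : w ∈ (k⟮θ⟯).toSubalgebra := hw
    rw [IntermediateField.adjoin_simple_toSubalgebra_of_isAlgebraic hint.isAlgebraic,
      Algebra.adjoin_singleton_eq_range_aeval] at h1
    obtain ⟨p, hp⟩ := h1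
    exact ⟨p, hp⟩
  obtain ⟨w, hw, hw2⟩ := sq_adj hz (hmem D) hx he
  obtain ⟨g, rfl⟩ := hget w hw
  rcases hw2 with hw2 | hw2
  · refine (h _ hirr hdv g).1 (minpoly.dvd k θ ?_)
    rw [map_sub, map_pow, hw2, sub_self]
  · refine (h _ hirr hdv g).2 (minpoly.dvd k θ ?_)
    rw [map_sub, map_pow, hw2, map_mul, aeval_C, map_neg, map_ofNat, sub_self]

end Pool.Agent.Helper23K9.Q7
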