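import Pool.Agent.Helper23K9.Q7.Fix3
import Pool.Agent.Helper23K9.Q7.Sqz

/-!
For almost all `(a, b)` the values of a fixed polynomial at the roots of `b (a³ - 27 b)` are not
squares.
-/

set_option autoImplicit false
set_option linter.all false

namespace Pool.Agent.Helper23K9.Q7

open Polynomial NumberField Pool.Agent.R939.EI Pool.Agent.R939.HI Pool.Agent.W275.UB
open Pool.Agent.Helper23K9.Q3 (bad3)
open Pool.Agent.Helper23K9.Q4 (NonSq)

/-- the coefficients of `a` and `b` -/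
abbrev Ix2 (r m : ℕ) : Type := Fin (r + 1) ⊕ Fin (m + 1)

noncomputable def Pa (r m : ℕ) : (MvPolynomial (Ix2 r m) ℤ)[X] :=
  polA fun j : Fin (r + 1) => MvPolynomial.X (Sum.inl j)

noncomputable def Pb (r m : ℕ) : (MvPolynomial (Ix2 r m) ℤ)[X] :=
  polA fun j : Fin (m + 1) => MvPolynomial.X (Sum.inr j)

noncomputable def Pd (r m : ℕ) : (MvPolynomial (Ix2 r m) ℤ)[X] := Pa r m ^ 3 - 27 * Pb r m

section maps

variable {r m : ℕ} {R : Type} [CommRing R]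

theorem Pa_map (v : Ix2 r m → R) : (Pa r m).map (av v) = polA fun j => v (Sum.inl j) := by
  unfold Pa
  rw [polA_map]
  simp only [av_X]

theorem Pb_map (v : Ix2 r m → R) : (Pb r m).map (av v) = polA fun j => v (Sum.inr j) := by
  unfold Pb
  rw [polA_map]
  simp only [av_X]

theorem Pd_map (v : Ix2 r m → R) : (Pd r m).map (av v) =
    (polA fun j => v (Sum.inl j)) ^ 3 - 27 * (polA fun j => v (Sum.inr j)) := by
  unfold Pd
  rw [Polynomial.map_sub, Polynomial.map_mul, Polynomial.map_pow, Polynomial.map_ofNat, Pa_map,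
    Pb_map]

theorem Pb_deg : (Pb r m).natDegree ≤ m := polA_natDegree _

theorem Pd_deg : (Pd r m).natDegree ≤ max (3 * r) m := by
  unfold Pd
  refine (natDegree_sub_le _ _).trans (max_le_max ?_ ?_)
  · exact natDegree_pow_le.trans (Nat.mul_le_mul_left 3 (polA_natDegree _))
  · have h27 : (27 : (MvPolynomial (Ix2 r m) ℤ)[X]) = C 27 := by rw [map_ofNat]
    rw [h27]
    exact (natDegree_C_mul_le _ _).trans (polA_natDegree _)

end maps

theorem unit27 {p : ℕ} [hp : Fact p.Prime] (h3 : p ≠ 3) : ∃ w : ℤ_[p], 27 * w = 1 := by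
  have hu : IsUnit ((27 : ℤ) : ℤ_[p]) := by
    rw [PadicInt.isUnit_iff]
    have h6 : ¬ ‖((27 : ℤ) : ℤ_[p])‖ < 1 := by
      rw [PadicInt.norm_int_lt_one_iff_dvd]
      intro hdv
      have h1 : p ∣ 3 ^ 3 := by exact_mod_cast hdv
      have h2 := hp.1.dvd_of_dvd_pow h1
      exact h3 ((Nat.prime_dvd_prime_iff_eq hp.1 Nat.prime_three).1 h2)
    exact le_antisymm (PadicInt.norm_le_one _) (not_lt.1 h6)
  obtain ⟨w, hw⟩ := hu.exists_right_inv
  exact ⟨w, by exact_mod_cast hw⟩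

section target

variable {p : ℕ} [Fact p.Prime] (ρ : ℤ_[p]) {r m : ℕ}

theorem tgt_b : ∃ a : Ix2 r m → ℤ_[p], (Pb r m).map (av a) = (X - C ρ) ^ m + C (p : ℤ_[p]) := by
  refine ⟨Sum.elim (fun _ => 0) fun j => ((X - C ρ) ^ m + C (p : ℤ_[p])).coeff j, ?_⟩
  rw [Pb_map]
  simp only [Sum.elim_inr]
  refine polA_of ?_
  refine (natDegree_add_le _ _).trans (max_le ?_ ?_)
  · rw [natDegree_pow, natDegree_X_sub_C, mul_one]
  · rw [natDegree_C]
    exact Nat.zero_le _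

theorem tgt_d (h3 : p ≠ 3) : ∃ a : Ix2 r m → ℤ_[p],
    (Pd r m).map (av a) = (X - C ρ) ^ (max (3 * r) m) + C (p : ℤ_[p]) := by
  obtain ⟨w, hw⟩ := unit27 h3
  have hw' : (27 : ℤ_[p][X]) * C w = 1 := by
    have h27 : (27 : ℤ_[p][X]) = C 27 := by rw [map_ofNat]
    rw [h27, ← C_mul, hw, C_1]
  rcases le_total m (3 * r) with hmr | hmr
  · refine ⟨Sum.elim (fun j => ((X - C ρ) ^ r).coeff j)
      fun j => (-(C w * C (p : ℤ_[p]))).coeff j, ?_⟩
    rw [Pd_map]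
    simp only [Sum.elim_inr, Sum.elim_inl]
    rw [polA_of (g := (X - C ρ) ^ r) (by rw [natDegree_pow, natDegree_X_sub_C, mul_one]),
      polA_of (g := -(C w * C (p : ℤ_[p]))) (by
        rw [← C_mul, ← C_neg, natDegree_C]; exact Nat.zero_le _), max_eq_left hmr]
    linear_combination (C (p : ℤ_[p])) * hw'
  · refine ⟨Sum.elim (fun _ => 0)
      fun j => (-(C w * ((X - C ρ) ^ m + C (p : ℤ_[p])))).coeff j, ?_⟩
    rw [Pd_map]
    simp only [Sum.elim_inr, Sum.elim_inl]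
    have h0 : polA (fun _ : Fin (r + 1) => (0 : ℤ_[p])) = 0 := by
      unfold polA
      simp
    rw [h0, polA_of (g := -(C w * ((X - C ρ) ^ m + C (p : ℤ_[p])))) (by
        rw [natDegree_neg]
        refine (natDegree_C_mul_le _ _).trans ((natDegree_add_le _ _).trans (max_le ?_ ?_))
        · rw [natDegree_pow, natDegree_X_sub_C, mul_one]
        · rw [natDegree_C]
          exact Nat.zero_le _), max_eq_right hmr]
    linear_combination ((X - C ρ) ^ m + C (p : ℤ_[p])) * hw'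

end target

theorem coeff_ne {ι : Type} {P : (MvPolynomial ι ℤ)[X]} {N p : ℕ} [Fact p.Prime] (hN : 1 ≤ N)
    {ρ : ℤ_[p]} {a : ι → ℤ_[p]} (ha : P.map (av a) = (X - C ρ) ^ N + C (p : ℤ_[p])) :
    P.coeff N ≠ 0 := by
  intro h0
  have hg : ((X - C ρ) ^ N + C (p : ℤ_[p])).coeff N = 1 := by
    have h1 : ((X - C ρ) ^ N).Monic := (monic_X_sub_C ρ).pow _
    have h2 : ((X - C ρ) ^ N).natDegree = N := by
      rw [natDegree_pow, natDegree_X_sub_C, mul_one]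
    rw [coeff_add, coeff_C, if_neg (by omega), add_zero]
    have h3 : ((X - C ρ) ^ N).coeff ((X - C ρ) ^ N).natDegree = 1 := h1
    rwa [h2] at h3
  rw [← ha, coeff_map, h0, map_zero] at hg
  exact zero_ne_one hg

section nf

variable {k : Type} [Field k] [NumberField k] {J : Type} [Fintype J] (ω : Module.Basis J ℤ (𝓞 k))

/-- The values of `f` at the roots of the members of a family. -/
theorem dens_one {ι : Type} [Fintype ι] {P : (MvPolynomial ι ℤ)[X]} {N : ℕ} (hN : 1 ≤ N)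
    (hdeg : P.natDegree ≤ N)
    (htgt : ∀ (p : ℕ) (_ : Fact p.Prime) (_ : p ≠ 3) (ρ : ℤ_[p]), ∃ a : ι → ℤ_[p],
      P.map (av a) = (X - C ρ) ^ N + C (p : ℤ_[p])) {f : k[X]}
    (hf : ∀ (c : k) (g : k[X]), f ≠ C c * g ^ 2) :
    D0 {x : ι × J → ℤ | ¬ ((P.map (av (kv ω x))).coeff N ≠ 0 ∧
      ∀ π : k[X], Irreducible π → π ∣ P.map (av (kv ω x)) → ∀ r : k[X], ¬ π ∣ f - r ^ 2)} := by
  have hf0 : f ≠ 0 := fun h => hf 0 0 (by rw [h]; simp)
  obtain ⟨Q, c, hc, hQ, p, i, hp3, σ, ρ, m, G, e, u⟩ := padic_root3 ω hf0 hf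
  obtain ⟨a, ha⟩ := htgt p i hp3 ρ
  have h1 := dens_fixP ω hN hdeg Q p σ ρ m G e u a ha
  have h2 : D0 {x : ι × J → ℤ | (P.map (av (kv ω x))).coeff N = 0} :=
    dens_lead ω (coeff_ne hN ha)
  intro ε hε
  refine ((h1.union h2) ε hε).mono ?_
  intro x hx
  by_contra hcon
  apply hx
  simp only [Set.mem_union, not_or] at hcon
  obtain ⟨k1, k2⟩ := hcon
  refine ⟨k2, fun π hπ hdv r => ?_⟩
  have hne : P.map (av (kv ω x)) ≠ 0 := by
    intro h0
    apply k2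
    show (P.map (av (kv ω x))).coeff N = 0
    rw [h0, coeff_zero]
  have hd : π.natDegree ≤ N :=
    (natDegree_le_of_dvd hdv hne).trans (natDegree_map_le.trans hdeg)
  exact not_fixP ω hc hQ k1 hπ hd hdv r

theorem dens_nonSq {k' : Type} [Field k'] [Algebra k k'] {r m : ℕ} (hm : 1 ≤ m) {D : k[X]}
    (hD : ∀ (c : k) (g : k[X]), D ≠ C c * g ^ 2) {z : k'} (hz : z ^ 2 + z + 1 = 0) :
    D0 {x : Ix2 r m × J → ℤ | ¬ (bad3 (polA fun j => kv ω x (Sum.inl j))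
      (polA fun j => kv ω x (Sum.inr j)) ≠ 0 ∧ NonSq (polA fun j => kv ω x (Sum.inl j))
      (polA fun j => kv ω x (Sum.inr j)) D z)} := by
  have hD3 : ∀ (c : k) (g : k[X]), C (-3) * D ≠ C c * g ^ 2 := by
    intro c g h
    apply hD (-(c / 3)) g
    have h3 : (3 : k) ≠ 0 := by norm_num
    have h4 : (C (-3 : k)) * D = C (-3) * (C (-(c / 3)) * g ^ 2) := by
      rw [h, ← mul_assoc, ← C_mul]
      congr 2
      field_simp
    exact mul_left_cancel₀ (C_ne_zero.2 (neg_ne_zero.2 h3)) h4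
  have hN : 1 ≤ max (3 * r) m := hm.trans (le_max_right _ _)
  have h1 := dens_one ω (P := Pb r m) hm Pb_deg (fun p _ _ ρ => tgt_b ρ) hD
  have h2 := dens_one ω (P := Pb r m) hm Pb_deg (fun p _ _ ρ => tgt_b ρ) hD3
  have h3 := dens_one ω (P := Pd r m) hN Pd_deg (fun p _ h ρ => tgt_d ρ h) hD
  have h4 := dens_one ω (P := Pd r m) hN Pd_deg (fun p _ h ρ => tgt_d ρ h) hD3
  intro ε hε
  refine ((((h1.union h2).union h3).union h4) ε hε).mono ?_
  intro x hx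
  by_contra hcon
  apply hx
  simp only [Set.mem_union, not_or, Set.mem_setOf_eq, not_not] at hcon
  obtain ⟨⟨⟨⟨n1, k1⟩, -, k2⟩, n3, k3⟩, -, k4⟩ := hcon
  have nb : (polA fun j => kv ω x (Sum.inr j)) ≠ 0 := by
    intro h0
    apply n1
    rw [Pb_map, h0, coeff_zero]
  have nd : (polA fun j => kv ω x (Sum.inl j)) ^ 3 - 27 * (polA fun j => kv ω x (Sum.inr j)) ≠ 0 := by
    intro h0
    apply n3
    rw [Pd_map, h0, coeff_zero]
  have hbad : bad3 (polA fun j => kv ω x (Sum.inl j)) (polA fun j => kv ω x (Sum.inr j)) ≠ 0 :=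
    mul_ne_zero nb nd
  refine ⟨hbad, nonSq_of hbad hz fun π hπ hdv g => ?_⟩
  rcases hπ.prime.dvd_or_dvd hdv with h | h
  · exact ⟨k1 π hπ (by rw [Pb_map]; exact h) g, k2 π hπ (by rw [Pb_map]; exact h) g⟩
  · exact ⟨k3 π hπ (by rw [Pd_map]; exact h) g, k4 π hπ (by rw [Pd_map]; exact h) g⟩

/-- The count. -/
theorem count_nonSq {k' : Type} [Field k'] [Algebra k k'] {r m : ℕ} (hm : 1 ≤ m) {D : k[X]}
    (hD : ∀ (c : k) (g : k[X]), D ≠ C c * g ^ 2) {z : k'} (hz : z ^ 2 + z + 1 = 0) {η : ℝ}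
    (hη : 0 < η) : ∃ H0 : ℕ, ∀ H : ℕ, H0 ≤ H →
    (({x : (Fin (r + 1) → 𝓞 k) × (Fin (m + 1) → 𝓞 k) |
      ((∀ j t, |ω.repr (x.1 j) t| ≤ (H : ℤ)) ∧ ∀ j t, |ω.repr (x.2 j) t| ≤ (H : ℤ)) ∧
      ¬ (bad3 (polA fun j => algebraMap (𝓞 k) k (x.1 j))
        (polA fun j => algebraMap (𝓞 k) k (x.2 j)) ≠ 0 ∧
        NonSq (polA fun j => algebraMap (𝓞 k) k (x.1 j))
        (polA fun j => algebraMap (𝓞 k) k (x.2 j)) D z)}.ncard : ℕ) : ℝ) ≤
      η * (2 * H + 1) ^ (Fintype.card J * (r + 1 + (m + 1))) := by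
  classical
  obtain ⟨H0, hH⟩ := dens_nonSq ω (r := r) hm hD hz η hη
  refine ⟨H0, fun H hHH => ?_⟩
  have h1 := hH H hHH
  have hcard : Fintype.card (Ix2 r m × J) = Fintype.card J * (r + 1 + (m + 1)) := by
    rw [Fintype.card_prod, Fintype.card_sum, Fintype.card_fin, Fintype.card_fin, Nat.mul_comm]
  rw [hcard] at h1
  refine le_trans ?_ h1
  let φ : ((Fin (r + 1) → 𝓞 k) × (Fin (m + 1) → 𝓞 k)) → (Ix2 r m × J → ℤ) := fun y o =>
    ω.repr ((Sum.elim y.1 y.2 : Ix2 r m → 𝓞 k) o.1) o.2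
  have hkv : ∀ y (o : Ix2 r m), kv ω (φ y) o =
      algebraMap (𝓞 k) k ((Sum.elim y.1 y.2 : Ix2 r m → 𝓞 k) o) := by
    intro y o
    show algebraMap (𝓞 k) k (elt ω fun j =>
      ω.repr ((Sum.elim y.1 y.2 : Ix2 r m → 𝓞 k) o) j) = _
    rw [← basis_elt ω]
  have hinj : Function.Injective φ := by
    intro y z hyz
    have h3 : ∀ o : Ix2 r m, (Sum.elim y.1 y.2 : Ix2 r m → 𝓞 k) o = Sum.elim z.1 z.2 o := by
      intro o
      apply FaithfulSMul.algebraMap_injective (𝓞 k) k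
      rw [← hkv, ← hkv, hyz]
    refine Prod.ext ?_ ?_
    · funext j
      exact h3 (Sum.inl j)
    · funext j
      exact h3 (Sum.inr j)
  have h4 : (Set.ncard {x : (Fin (r + 1) → 𝓞 k) × (Fin (m + 1) → 𝓞 k) |
      ((∀ j t, |ω.repr (x.1 j) t| ≤ (H : ℤ)) ∧ ∀ j t, |ω.repr (x.2 j) t| ≤ (H : ℤ)) ∧
      ¬ (bad3 (polA fun j => algebraMap (𝓞 k) k (x.1 j))
        (polA fun j => algebraMap (𝓞 k) k (x.2 j)) ≠ 0 ∧
        NonSq (polA fun j => algebraMap (𝓞 k) k (x.1 j))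
        (polA fun j => algebraMap (𝓞 k) k (x.2 j)) D z)}) ≤
      Set.ncard {v : Ix2 r m × J → ℤ | v ∈ {x : Ix2 r m × J → ℤ |
      ¬ (bad3 (polA fun j => kv ω x (Sum.inl j))
      (polA fun j => kv ω x (Sum.inr j)) ≠ 0 ∧ NonSq (polA fun j => kv ω x (Sum.inl j))
      (polA fun j => kv ω x (Sum.inr j)) D z)} ∧ ∀ i, |v i| ≤ (H : ℤ)} := by
    rw [← Set.ncard_image_of_injective _ hinj]
    refine Set.ncard_le_ncard ?_ (box_fin _ H)
    rintro _ ⟨y, ⟨⟨b1, b2⟩, hbad⟩, rfl⟩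
    have ea : (fun j => kv ω (φ y) (Sum.inl j)) = fun j => algebraMap (𝓞 k) k (y.1 j) := by
      funext j
      exact hkv y (Sum.inl j)
    have eb : (fun j => kv ω (φ y) (Sum.inr j)) = fun j => algebraMap (𝓞 k) k (y.2 j) := by
      funext j
      exact hkv y (Sum.inr j)
    refine ⟨?_, ?_⟩
    · rw [Set.mem_setOf_eq, ea, eb]
      exact hbad
    · rintro ⟨(j | j), t⟩
      · exact b1 j t
      · exact b2 j t
  exact_mod_cast h4

end nf

end Pool.Agent.Helper23K9.Q7
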