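import Pool.Agent.Helper23K9.Q7.Fub

/-!
# Almost all surfaces are inert at the branch points of a fixed curve
-/

set_option autoImplicit false
set_option linter.all false

open Polynomial NumberField
open scoped Classical

namespace Pool.Agent.Helper23K9.Q7

open Pool.Agent.R939.EI (polA polP elt InertIn basis_elt)
open Pool.Agent.R939.HI (Ix aV bV kv box_ncard)
open Pool.Agent.W275.UB (D0 UD box_fin)
open Pool.Agent.Helper23K9.Q5 (el exists_den boxfin)
open Pool.Agent.Helper23K9.Q6 (ZrU eln zrn lin_nsq card_fin1)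

/-- the coefficients of `a` and `b` -/
abbrev Ixt (r m : ℕ) : Type := Ix r (fun _ : Fin 1 => m) (fun _ : Fin 0 => 1)

/-- the coefficient of `b` -/
abbrev ib {r m : ℕ} (j : Fin (m + 1)) : Ixt r m := Sum.inl (Sum.inr ⟨0, j⟩)

/-- the coefficient of `a` -/
abbrev ia {r m : ℕ} (j : Fin (r + 1)) : Ixt r m := Sum.inl (Sum.inl j)

section one

variable {k M : Type} [Field k] [NumberField k] [Field M] [NumberField M] [Algebra k M]
  {J : Type} [Fintype J] (B : Module.Basis J ℤ (𝓞 k)) {r m : ℕ}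

/-- the powers of a fraction -/
theorem exists_pow (θ : M) (r m : ℕ) : ∃ (N : ℤ) (c1 c2 : ℕ → 𝓞 M), N ≠ 0 ∧ c2 0 = (N : 𝓞 M) ^ 2 ∧
    (∀ j ≤ r, algebraMap (𝓞 M) M (c1 j) = N * θ ^ j) ∧
    ∀ j ≤ m, algebraMap (𝓞 M) M (c2 j) = N ^ 2 * θ ^ j := by
  obtain ⟨n, θ1, -, hn, e, -⟩ := exists_den θ θ
  refine ⟨n ^ (r + m), fun j => (n : 𝓞 M) ^ (r + m - j) * θ1 ^ j,
    fun j => (n : 𝓞 M) ^ (2 * (r + m) - j) * θ1 ^ j, pow_ne_zero _ hn, ?_, ?_, ?_⟩
  · push_cast
    rw [pow_zero, mul_one, Nat.sub_zero, ← pow_mul, Nat.mul_comm]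
  · intro j hj
    rw [map_mul, map_pow, map_pow, map_intCast, e, mul_pow, ← mul_assoc, ← pow_add]
    push_cast
    rw [Nat.sub_add_cancel (by omega)]
  · intro j hj
    rw [map_mul, map_pow, map_pow, map_intCast, e, mul_pow, ← mul_assoc, ← pow_add]
    push_cast
    rw [Nat.sub_add_cancel (by omega), ← pow_mul, Nat.mul_comm]

theorem aev_a (θ : M) (x : Ixt r m × J → ℤ) : aeval θ (polA (aV (kv B x))) =
    ∑ j : Fin (r + 1), algebraMap (𝓞 M) M (algebraMap (𝓞 k) (𝓞 M)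
      (elt B fun t => x (ia j, t))) * θ ^ (j : ℕ) := by
  unfold polA
  rw [map_sum]
  refine Finset.sum_congr rfl fun j _ => ?_
  rw [map_mul, map_pow, aeval_X, aeval_C]
  rfl

theorem aev_b (θ : M) (x : Ixt r m × J → ℤ) : aeval θ (polP (bV (kv B x))) =
    ∑ j : Fin (m + 1), algebraMap (𝓞 M) M (algebraMap (𝓞 k) (𝓞 M)
      (elt B fun t => x (ib j, t))) * θ ^ (j : ℕ) := by
  have h1 : polP (bV (kv B x)) = polA (bV (kv B x) 0) := by
    unfold polP
    rw [Fin.prod_univ_one]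
  rw [h1]
  unfold polA
  rw [map_sum]
  refine Finset.sum_congr rfl fun j _ => ?_
  rw [map_mul, map_pow, aeval_X, aeval_C]
  rfl

/-- the rest of `b` -/
noncomputable def wb (c2 : ℕ → 𝓞 M) (z : Ixt r m × J → ℤ) : 𝓞 M :=
  ∑ j : Fin m, algebraMap (𝓞 k) (𝓞 M) (elt B fun t => z (ib j.succ, t)) * c2 (j + 1)

/-- the value of `a` -/
noncomputable def wa (c1 : ℕ → 𝓞 M) (z : Ixt r m × J → ℤ) : 𝓞 M :=
  ∑ j : Fin (r + 1), algebraMap (𝓞 k) (𝓞 M) (elt B fun t => z (ia j, t)) * c1 j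

/-- the constant coefficients -/
def e0 (r m : ℕ) (J : Type) : Fin 1 × J → Ixt r m × J := fun it => (ib 0, it.2)

theorem e0_inj : Function.Injective (e0 r m J) := by
  rintro ⟨i, t⟩ ⟨i', t'⟩ h
  have h1 : t = t' := congrArg Prod.snd h
  rw [h1, Subsingleton.elim i i']

theorem wb_congr {c2 : ℕ → 𝓞 M} {v z : Ixt r m × J → ℤ}
    (h : ∀ b, b ∉ Set.range (e0 r m J) → z b = v b) : wb B c2 z = wb B c2 v := by
  unfold wb
  refine Finset.sum_congr rfl fun j _ => ?_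
  congr 3
  funext t
  apply h
  rintro ⟨⟨i, t'⟩, ht⟩
  have h1 : (ib (0 : Fin (m + 1)) : Ixt r m) = ib j.succ := congrArg Prod.fst ht
  simp only [ib, Sum.inl.injEq, Sum.inr.injEq, Sigma.mk.injEq, heq_eq_eq, true_and] at h1
  exact (Fin.succ_ne_zero j) h1.symm

theorem wa_congr {c1 : ℕ → 𝓞 M} {v z : Ixt r m × J → ℤ}
    (h : ∀ b, b ∉ Set.range (e0 r m J) → z b = v b) : wa B c1 z = wa B c1 v := by
  unfold wa
  refine Finset.sum_congr rfl fun j _ => ?_
  congr 3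
  funext t
  apply h
  rintro ⟨⟨i, t'⟩, ht⟩
  have h1 : (ib (0 : Fin (m + 1)) : Ixt r m) = ia j := congrArg Prod.fst ht
  simp [ib, ia] at h1

theorem eln_eq (v : Ixt r m × J → ℤ) :
    eln B (fun a => v (e0 r m J a)) 0 = elt B fun t => v (ib 0, t) := by
  show (∑ t, v (ib 0, t) • B t) = ∑ t, (v (ib 0, t) : 𝓞 k) * B t
  exact Finset.sum_congr rfl fun t _ => zsmul_eq_mul _ _

theorem key_b {θ : M} {N : ℤ} {c2 : ℕ → 𝓞 M} (h0 : c2 0 = (N : 𝓞 M) ^ 2)
    (h : ∀ j ≤ m, algebraMap (𝓞 M) M (c2 j) = N ^ 2 * θ ^ j) (v : Ixt r m × J → ℤ) :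
    algebraMap (𝓞 M) M (wb B c2 v + (N : 𝓞 M) ^ 2 *
      algebraMap (𝓞 k) (𝓞 M) (elt B fun t => v (ib 0, t))) =
      N ^ 2 * aeval θ (polP (bV (kv B v))) := by
  rw [aev_b, Fin.sum_univ_succ, wb, map_add, map_sum, mul_add, Finset.mul_sum, add_comm]
  congr 1
  · rw [map_mul, map_pow, map_intCast, Fin.val_zero, pow_zero, mul_one]
  · refine Finset.sum_congr rfl fun j _ => ?_
    rw [map_mul, h _ (by omega), Fin.val_succ]
    ring

theorem key_a {θ : M} {N : ℤ} {c1 : ℕ → 𝓞 M}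
    (h : ∀ j ≤ r, algebraMap (𝓞 M) M (c1 j) = N * θ ^ j) (v : Ixt r m × J → ℤ) :
    algebraMap (𝓞 M) M (wa B c1 v) = N * aeval θ (polA (aV (kv B v))) := by
  rw [aev_a, wa, map_sum, Finset.mul_sum]
  refine Finset.sum_congr rfl fun j _ => ?_
  rw [map_mul, h _ (by omega)]
  ring

theorem dens_b (θ : M) : D0 {x : Ixt r m × J → ℤ |
    IsSquare (aeval θ (polP (bV (kv B x))))} := by
  obtain ⟨N, c1, c2, hN, h0, h1, h2⟩ := exists_pow θ r m
  refine fub (e0 r m J) e0_inj (zu_sq B (pow_ne_zero 2 hN) fun z => wb B c2 z) ?_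
  rintro v ⟨g, hg⟩ z hz
  rw [Set.mem_setOf_eq, wb_congr B hz, eln_eq]
  apply sq_int (y := (N : M) * g)
  rw [Int.cast_pow, key_b B h0 h2, hg]
  ring

theorem dens_d (θ : M) : D0 {x : Ixt r m × J → ℤ |
    IsSquare (aeval θ (polA (aV (kv B x)) ^ 2 - 4 * polP (bV (kv B x))))} := by
  obtain ⟨N, c1, c2, hN, h0, h1, h2⟩ := exists_pow θ r m
  refine fub (e0 r m J) e0_inj (zu_sq B (ν := -4 * N ^ 2) (mul_ne_zero (by norm_num)
    (pow_ne_zero 2 hN)) fun z => wa B c1 z ^ 2 - 4 * wb B c2 z) ?_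
  rintro v ⟨g, hg⟩ z hz
  rw [Set.mem_setOf_eq, wa_congr B hz, wb_congr B hz, eln_eq]
  apply sq_int (y := (N : M) * g)
  have e1 : wa B c1 v ^ 2 - 4 * wb B c2 v + ((-4 * N ^ 2 : ℤ) : 𝓞 M) *
      algebraMap (𝓞 k) (𝓞 M) (elt B fun t => v (ib 0, t)) =
      wa B c1 v ^ 2 - 4 * (wb B c2 v + (N : 𝓞 M) ^ 2 *
        algebraMap (𝓞 k) (𝓞 M) (elt B fun t => v (ib 0, t))) := by
    push_cast
    ring
  rw [e1, map_sub, map_pow, map_mul, key_a B h1, key_b B h0 h2, map_ofNat]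
  have e2 : aeval θ (polA (aV (kv B v)) ^ 2 - 4 * polP (bV (kv B v))) =
      aeval θ (polA (aV (kv B v))) ^ 2 - 4 * aeval θ (polP (bV (kv B v))) := by
    rw [map_sub, map_pow, map_mul, map_ofNat]
  rw [e2] at hg
  linear_combination (N : M) ^ 2 * hg

end one

section all

variable {k : Type} [Field k] [NumberField k] {J : Type} [Fintype J]
  (B : Module.Basis J ℤ (𝓞 k)) {r m : ℕ}

theorem dens_pi {π : k[X]} (hπ : Irreducible π) : D0 {x : Ixt r m × J → ℤ | ∃ g : k[X],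
    π ∣ polP (bV (kv B x)) - g ^ 2 ∨
      π ∣ (polA (aV (kv B x)) ^ 2 - 4 * polP (bV (kv B x))) - g ^ 2} := by
  haveI : Fact (Irreducible π) := ⟨hπ⟩
  haveI : FiniteDimensional k (AdjoinRoot π) := (AdjoinRoot.powerBasis hπ.ne_zero).finite
  haveI : CharZero (AdjoinRoot π) :=
    charZero_of_injective_algebraMap (algebraMap k (AdjoinRoot π)).injective
  haveI : IsScalarTower ℚ k (AdjoinRoot π) := IsScalarTower.of_algebraMap_eq fun q => by simp
  haveI : FiniteDimensional ℚ (AdjoinRoot π) := FiniteDimensional.trans ℚ k (AdjoinRoot π)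
  haveI : NumberField (AdjoinRoot π) :=
    { to_charZero := inferInstance, to_finiteDimensional := inferInstance }
  have h1 := dens_b (M := AdjoinRoot π) (r := r) (m := m) B (AdjoinRoot.root π)
  have h2 := dens_d (M := AdjoinRoot π) (r := r) (m := m) B (AdjoinRoot.root π)
  have hev : ∀ f g : k[X], π ∣ f - g ^ 2 → IsSquare (aeval (AdjoinRoot.root π) f) := by
    intro f g h
    refine ⟨aeval (AdjoinRoot.root π) g, ?_⟩
    obtain ⟨q, hq⟩ := h
    have h3 : f = π * q + g ^ 2 := by linear_combination hq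
    have h4 : aeval (AdjoinRoot.root π) π = 0 := by
      rw [AdjoinRoot.aeval_eq, AdjoinRoot.mk_self]
    rw [h3, map_add, map_mul, h4, zero_mul, zero_add, map_pow, pow_two]
  intro ε hε
  refine ((h1.union h2) ε hε).mono ?_
  rintro x ⟨g, hg | hg⟩
  · exact Or.inl (hev _ g hg)
  · exact Or.inr (hev _ g hg)

/-- **Almost all `(a, b)` are inert at the zeros of a fixed polynomial `D`.** -/
theorem dens_inert {D : k[X]} (hD : D ≠ 0) : D0 {x : Ixt r m × J → ℤ |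
    ¬ InertIn (polA (aV (kv B x))) (polP (bV (kv B x))) D} := by
  have h1 : D0 (⋃ π ∈ (UniqueFactorizationMonoid.normalizedFactors D).toFinset,
      {x : Ixt r m × J → ℤ | ∃ g : k[X], π ∣ polP (bV (kv B x)) - g ^ 2 ∨
        π ∣ (polA (aV (kv B x)) ^ 2 - 4 * polP (bV (kv B x))) - g ^ 2}) := by
    refine D0.biUnion _ _ fun π hπ => dens_pi B ?_
    rw [Multiset.mem_toFinset] at hπ
    exact UniqueFactorizationMonoid.irreducible_of_normalized_factor π hπ
  intro ε hε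
  refine (h1 ε hε).mono ?_
  intro x hx
  by_contra hcon
  apply hx
  refine ⟨hD, fun π hπ hdv g => ?_⟩
  obtain ⟨ρ, hρ, hass⟩ := UniqueFactorizationMonoid.exists_mem_normalizedFactors_of_dvd hD hπ hdv
  simp only [Set.mem_iUnion, not_exists] at hcon
  have h2 := hcon ρ (Multiset.mem_toFinset.2 hρ)
  simp only [Set.mem_setOf_eq, not_exists, not_or] at h2
  exact ⟨fun h => (h2 g).1 (hass.symm.dvd.trans h), fun h => (h2 g).2 (hass.symm.dvd.trans h)⟩

end all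

end Pool.Agent.Helper23K9.Q7
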