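import Pool.Agent.Helper23K9.Q7.Two
import Pool.Agent.Helper23K9.Q7.Inr

/-!
# The Tate conjecture at 2 over a fixed hyperelliptic curve for almost all surfaces
-/

set_option autoImplicit false
set_option linter.all false

open Polynomial NumberField
open scoped Classical

namespace Pool.Agent.Helper23K9.Q7

open Pool.Agent.TH115.GD (Sep IsTower TateAtTwo crvT)
open Pool.Agent.R939.EI (polA polP elt InertIn basis_elt)
open Pool.Agent.R939.HI (Ix aV bV kv mk card_Ix TateTD main_allI)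
open Pool.Agent.W275.UB (D0 UD box_fin)

section fixed

variable {k k' K F : Type} [Field k] [Field k'] [Algebra k k'] [Field K] [Algebra k[X] K]
    [Field F] [Algebra k'[X] F] [IsFractionRing k'[X] F] [Algebra K F]

/-- The Tate conjecture at 2 for the elliptic surfaces with generic fibres
`y² = x (x² + a(h(t)) x + b(h(t)))` over the curves `s ^ 2 = c D(h(t))`, for all the constants `c ≠ 0`
and all the polynomials `h` of odd degree such that the irreducible divisors of `b (a² - 4 b) D` remain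
irreducible after the substitution `t ↦ h(t)`. -/
def BaseTD (k' K F : Type) {k : Type} [Field k] [Field k'] [Field K]
    [Algebra k[X] K] [Field F] [Algebra k'[X] F] [IsFractionRing k'[X] F] [Algebra K F]
    (a b D : k[X]) : Prop :=
  ∀ (c : k) (h : k[X]), c ≠ 0 → Odd h.natDegree →
    (∀ π : k[X], Irreducible π → π ∣ b * (a ^ 2 - 4 * b) * D → Irreducible (π.comp h)) →
    TateOverH k' K F a b D h c

/-- For almost all `a`, `b` with integral coefficients and of degrees at most `r` and `m`, the Tate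
conjecture at 2 holds over the curve `s ^ 2 = D(t)`, in the sense of `BaseTD`. -/
def MostPairs (k' K F : Type) {k : Type} [Field k] [NumberField k] [Field k'] [Field K]
    [Algebra k[X] K] [Field F] [Algebra k'[X] F] [IsFractionRing k'[X] F] [Algebra K F]
    {J : Type} [Fintype J] (B : Module.Basis J ℤ (𝓞 k)) (D : k[X]) (r m : ℕ) : Prop :=
  ∀ η : ℝ, 0 < η → ∃ H0 : ℕ, ∀ H : ℕ, H0 ≤ H →
    (({x : (Fin (r + 1) → 𝓞 k) × (Fin (m + 1) → 𝓞 k) |
      ((∀ j t, |B.repr (x.1 j) t| ≤ (H : ℤ)) ∧ ∀ j t, |B.repr (x.2 j) t| ≤ (H : ℤ)) ∧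
      ¬ BaseTD k' K F (polA fun j => algebraMap (𝓞 k) k (x.1 j))
        (polA fun j => algebraMap (𝓞 k) k (x.2 j)) D}.ncard : ℕ) : ℝ) ≤
      η * (2 * H + 1) ^ (Fintype.card J * (r + 1 + (m + 1)))

theorem baseTD_of [NumberField k] (hT : IsTower k k' K F) {a b D : k[X]}
    (hin : InertIn a b (X * D)) (hall : ∀ D, InertIn a b D → TateTD k' K F a b D) :
    BaseTD k' K F a b D := by
  intro c h hc hodd hi r hr hrF
  have h0 := hin.2 X irreducible_X (dvd_mul_right _ _) 0
  have hb0 : b ≠ 0 := by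
    rintro rfl
    apply h0.1
    simp
  have hd0 : a ^ 2 - 4 * b ≠ 0 := by
    intro h1
    apply h0.2
    rw [h1]
    simp
  have hinD : InertIn a b D := ⟨right_ne_zero_of_mul hin.1,
    fun π hπ hdv => hin.2 π hπ (hdv.mul_left X)⟩
  have hin1 : InertIn a b 1 :=
    ⟨one_ne_zero, fun π hπ hdv => absurd (isUnit_of_dvd_one hdv) hπ.not_isUnit⟩
  refine over_of0 hT two_ne_zero hb0 hd0 hodd ?_
    (hall D hinD (4 * c) h (mul_ne_zero (by norm_num) hc) hodd hi) hr hrF
  have h3 := hall 1 hin1 1 h one_ne_zero hodd fun π hπ hdv =>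
    hi π hπ (by rw [mul_one] at hdv; exact hdv.mul_right D)
  simpa only [one_pow, map_one, one_mul, mul_one] using h3

variable [NumberField k] {J : Type} [Fintype J] (B : Module.Basis J ℤ (𝓞 k))

/-- **Almost all surfaces over a fixed hyperelliptic curve.** -/
theorem most_pairs (hT : IsTower k k' K F) {r m : ℕ} (hr : 2 ≤ r) (hm1 : 1 ≤ m) (hm2 : m ≠ 2)
    {D : k[X]} (hD : D ≠ 0) : MostPairs k' K F B D r m := by
  intro η hη
  have hA := main_allI (r := r) (m := fun _ : Fin 1 => m) (n := fun _ : Fin 0 => 1) hT B hr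
    (fun _ => hm1) (fun _ => le_rfl) 0 hm2
  have hI := dens_inert (r := r) (m := m) B (D := X * D) (mul_ne_zero X_ne_zero hD)
  obtain ⟨H0, hH⟩ := (hA.union hI) η hη
  refine ⟨H0, fun H hHH => ?_⟩
  have h1 := hH H hHH
  have hcard : Fintype.card (Ixt r m × J) = Fintype.card J * (r + 1 + (m + 1)) := by
    rw [Fintype.card_prod, card_Ix, Nat.mul_comm]
    simp
  rw [hcard] at h1
  refine le_trans ?_ h1
  let φ : ((Fin (r + 1) → 𝓞 k) × (Fin (m + 1) → 𝓞 k)) → (Ixt r m × J → ℤ) := fun y o =>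
    B.repr ((mk y.1 (fun _ => y.2) (fun l => l.elim0) : Ixt r m → 𝓞 k) o.1) o.2
  have hkv : ∀ y (o : Ixt r m), kv B (φ y) o =
      algebraMap (𝓞 k) k ((mk y.1 (fun _ => y.2) (fun l => l.elim0) : Ixt r m → 𝓞 k) o) := by
    intro y o
    show algebraMap (𝓞 k) k (elt B fun j =>
      B.repr ((mk y.1 (fun _ => y.2) (fun l => l.elim0) : Ixt r m → 𝓞 k) o) j) = _
    rw [← basis_elt B]
  have hinj : Function.Injective φ := by
    intro y z hyz
    have h3 : ∀ o : Ixt r m, (mk y.1 (fun _ => y.2) (fun l => l.elim0) : Ixt r m → 𝓞 k) o =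
        mk z.1 (fun _ => z.2) (fun l => l.elim0) o := by
      intro o
      apply FaithfulSMul.algebraMap_injective (𝓞 k) k
      rw [← hkv, ← hkv, hyz]
    refine Prod.ext ?_ ?_
    · funext j
      exact h3 (Sum.inl (Sum.inl j))
    · funext j
      exact h3 (Sum.inl (Sum.inr ⟨0, j⟩))
  have hsub : φ '' {x : (Fin (r + 1) → 𝓞 k) × (Fin (m + 1) → 𝓞 k) |
      ((∀ j t, |B.repr (x.1 j) t| ≤ (H : ℤ)) ∧ ∀ j t, |B.repr (x.2 j) t| ≤ (H : ℤ)) ∧
      ¬ BaseTD k' K F (polA fun j => algebraMap (𝓞 k) k (x.1 j))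
        (polA fun j => algebraMap (𝓞 k) k (x.2 j)) D} ⊆
      {v : Ixt r m × J → ℤ | v ∈ ({x : Ixt r m × J → ℤ |
        ¬ (InertIn (polA (aV (kv B x))) (polP (bV (kv B x)))
        (∏ l, polA (Pool.Agent.R939.HI.dV (kv B x) l)) ∧
        ∀ D, InertIn (polA (aV (kv B x))) (polP (bV (kv B x))) D →
        TateTD k' K F (polA (aV (kv B x))) (polP (bV (kv B x))) D)} ∪
        {x : Ixt r m × J → ℤ | ¬ InertIn (polA (aV (kv B x))) (polP (bV (kv B x))) (X * D)}) ∧
        ∀ i, |v i| ≤ (H : ℤ)} := by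
    rintro _ ⟨y, ⟨⟨b1, b2⟩, hbad⟩, rfl⟩
    have ea : aV (kv B (φ y)) = fun j => algebraMap (𝓞 k) k (y.1 j) := by
      funext j
      exact hkv y (Sum.inl (Sum.inl j))
    have eb : polP (bV (kv B (φ y))) = polA fun j => algebraMap (𝓞 k) k (y.2 j) := by
      have h5 : polP (bV (kv B (φ y))) = polA (bV (kv B (φ y)) 0) := by
        unfold polP
        rw [Fin.prod_univ_one]
      rw [h5]
      congr 1
      funext j
      exact hkv y (Sum.inl (Sum.inr ⟨0, j⟩))
    refine ⟨?_, ?_⟩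
    · by_contra hcon
      rw [Set.mem_union, not_or] at hcon
      obtain ⟨c1, c2⟩ := hcon
      rw [Set.mem_setOf_eq, not_not, ea, eb] at c1 c2
      exact hbad (baseTD_of hT c2 c1.2)
    · rintro ⟨(j | ⟨i, j⟩) | ⟨l, j⟩, t⟩
      · exact b1 j t
      · exact b2 j t
      · exact l.elim0
  have h4 := Set.ncard_le_ncard hsub (box_fin _ H)
  rw [Set.ncard_image_of_injective _ hinj] at h4
  exact_mod_cast h4

end fixed

end Pool.Agent.Helper23K9.Q7
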