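import Pool.Agent.Helper23K9.Q7.Pad

/-!
The values of a fixed polynomial at the roots of the members of a family.
-/

set_option autoImplicit false
set_option linter.all false

namespace Pool.Agent.Helper23K9.Q7

open Polynomial NumberField Pool.Agent.R939.EI Pool.Agent.R939.HI Pool.Agent.W275.UB

section near

variable {ι A : Type} [CommRing A]

theorem av_near' {b a : ι → A} {q : A} (h : ∀ i, q ∣ b i - a i)
    (c : MvPolynomial ι ℤ) : q ∣ av b c - av a c := by
  set I := Ideal.span {q}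
  have h1 : ((Ideal.Quotient.mk I).comp (av b)) = (Ideal.Quotient.mk I).comp (av a) := by
    rw [hom_av, hom_av]
    congr 1
    funext i
    exact (Ideal.Quotient.eq).2 (Ideal.mem_span_singleton.2 (h i))
  have h2 := RingHom.congr_fun h1 c
  rw [RingHom.comp_apply, RingHom.comp_apply] at h2
  exact Ideal.mem_span_singleton.1 ((Ideal.Quotient.eq).1 h2)

theorem coeff_near' {b a : ι → A} {q : A} (h : ∀ i, q ∣ b i - a i)
    (P : (MvPolynomial ι ℤ)[X]) (j : ℕ) :
    ∃ z, (P.map (av b)).coeff j = (P.map (av a)).coeff j + q * z := by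
  rw [coeff_map, coeff_map]
  obtain ⟨z, hz⟩ := av_near' h (P.coeff j)
  exact ⟨z, by rw [← hz]; ring⟩

end near

section dens

variable {O J ι : Type} [CommRing O] [IsDomain O] [Fintype J] [Fintype ι]
  (ω : Module.Basis J ℤ O)

/-- the parameters such that `Q` is a square at a root of `P` of small degree -/
def FixP (P : (MvPolynomial ι ℤ)[X]) (N : ℕ) (Q : O[X]) : Set (ι × J → ℤ) :=
  {x | ∃ (K : Type) (_ : Field K) (_ : NumberField K) (σ : O →+* K) (θ w : K),
      Module.finrank ℚ K ≤ N * Fintype.card J ∧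
      P.eval₂ (av (cv (fun j => σ (ω j)) fun q => (x q : K))) θ = 0 ∧
      w ^ 2 = Q.eval₂ σ θ}

theorem dens_fixP {P : (MvPolynomial ι ℤ)[X]} {N : ℕ} (hN : 1 ≤ N) (hdeg : P.natDegree ≤ N)
    (Q : O[X]) (p : ℕ) [Fact p.Prime] (σ₀ : O →+* ℤ_[p])
    (ρ : ℤ_[p]) (m : ℕ) (G : ℤ_[p][X]) (hQ : Q.map σ₀ = (X - C ρ) ^ (2 * m + 1) * G)
    (hG : IsUnit (G.eval ρ)) (a : ι → ℤ_[p])
    (ha : P.map (av a) = (X - C ρ) ^ N + C (p : ℤ_[p])) : D0 (FixP ω P N Q) := by
  have hg : ((X - C ρ) ^ N + C (p : ℤ_[p])).coeff N = 1 := by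
    have h1 : ((X - C ρ) ^ N).Monic := (monic_X_sub_C ρ).pow _
    have h2 : ((X - C ρ) ^ N).natDegree = N := by
      rw [natDegree_pow, natDegree_X_sub_C, mul_one]
    rw [coeff_add, coeff_C, if_neg (by omega), add_zero]
    have h3 : ((X - C ρ) ^ N).coeff ((X - C ρ) ^ N).natDegree = 1 := h1
    rwa [h2] at h3
  have hP0 : P ≠ 0 := by
    rintro rfl
    rw [Polynomial.map_zero] at ha
    rw [← ha, coeff_zero] at hg
    exact zero_ne_one hg
  refine rootsQ ω P Q hP0 N p σ₀ a 2 ?_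
  intro K' _ A _ _ _ _ _ π τ hπ hπp hπN b hb θ w hθ hw
  have hp0 : (p : A) ≠ 0 := p_ne hπN
  have hT : P.map (av fun i => τ (a i)) = (X - C (τ ρ)) ^ N + C (p : A) := by
    have h1 := congrArg (Polynomial.map τ) ha
    rw [Polynomial.map_map, hom_av] at h1
    rw [h1, Polynomial.map_add, Polynomial.map_pow, Polynomial.map_sub, map_X, map_C, map_C,
      map_natCast]
  have hTN : (P.map (av fun i => τ (a i))).coeff N = 1 := by
    have h1 := congrArg (Polynomial.map τ) ha
    rw [Polynomial.map_map, hom_av] at h1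
    rw [h1, coeff_map, hg, map_one]
  have hlead : IsUnit ((P.map (av b)).coeff N) := by
    obtain ⟨z, hz⟩ := coeff_near' hb P N
    rw [hz, hTN]
    exact unit_add hπ isUnit_one ((hπp.trans (dvd_pow_self _ two_ne_zero)).mul_right _)
  have hnd : (P.map (av b)).natDegree = N :=
    le_antisymm (natDegree_map_le.trans hdeg) (le_natDegree_of_ne_zero hlead.ne_zero)
  rw [← eval_map, map_map_av] at hθ
  obtain ⟨θ₀, hθ₀, h0⟩ := int_root (f := P.map (av b)) (by rw [leadingCoeff, hnd]; exact hlead) hθ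
  have h1 : (C ((p : A) ^ 2)) ∣ P.map (av b) - ((X - C (τ ρ)) ^ N + C (p : A)) := by
    rw [C_dvd_iff_dvd_coeff]
    intro j
    obtain ⟨z, hz⟩ := coeff_near' hb P j
    rw [coeff_sub, hz, hT]
    exact ⟨z, by ring⟩
  obtain ⟨s, hs⟩ := h1
  have h2 := congrArg (Polynomial.eval θ₀) hs
  rw [eval_sub, h0, eval_add, eval_pow, eval_sub, eval_X, eval_C, eval_C, eval_mul, eval_C] at h2
  obtain ⟨e, c, u', v, hu, hv, hec, hc⟩ := val_root (k := 1) (x := 1) (y := 1) hπ hN le_rfl hp0 hπp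
    isUnit_one isUnit_one (θ := θ₀ - τ ρ) (s := s.eval θ₀) (by
      rw [pow_one, one_mul, mul_one]
      linear_combination -h2)
  have hc1 : c = 1 := by
    rw [hu, pow_dvd_unit hπ] at hπN
    by_contra hne
    have h1 : N * 2 ≤ N * c := Nat.mul_le_mul_left _ (by omega)
    omega
  rw [hc1, pow_one] at hv
  have hval : Q.eval₂ ((algebraMap A K').comp (τ.comp σ₀)) θ =
      algebraMap A K' ((v : A) ^ (2 * m + 1) * (G.map τ).eval θ₀ * π ^ (2 * m + 1)) := by
    rw [← hθ₀, ← Polynomial.eval₂_map, ← eval_map (p := Q.map (τ.comp σ₀)), eval_map,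
      eval₂_at_apply, ← Polynomial.map_map, hQ, Polynomial.map_mul, Polynomial.map_pow,
      Polynomial.map_sub, map_X, map_C, eval_mul, eval_pow, eval_sub, eval_X, eval_C, hv]
    congr 1
    ring
  have hU : IsUnit ((G.map τ).eval θ₀) := by
    have h1 : θ₀ - τ ρ ∣ (G.map τ).eval θ₀ - (G.map τ).eval (τ ρ) := sub_dvd_eval_sub _ _ _
    have h2 : (G.map τ).eval (τ ρ) = τ (G.eval ρ) := by
      rw [eval_map, eval₂_at_apply]
    have h3 : IsUnit (τ (G.eval ρ)) := hG.map τ
    have h4 : π ∣ (G.map τ).eval θ₀ - τ (G.eval ρ) := by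
      rw [← h2]
      exact (Dvd.intro_left (v : A) hv.symm).trans h1
    have h5 := unit_add hπ h3 h4
    rwa [add_sub_cancel] at h5
  rw [hval] at hw
  exact no_sqrt_odd hπ ((v.isUnit.pow _).mul hU) hw

end dens

section nf

variable {k : Type} [Field k] [NumberField k] {J ι : Type} [Fintype J] [Fintype ι]
  (ω : Module.Basis J ℤ (𝓞 k))

theorem not_fixP {P : (MvPolynomial ι ℤ)[X]} {N : ℕ} {Q : (𝓞 k)[X]} {c : k} {f : k[X]} (hc : c ≠ 0)
    (hQ : Q.map (algebraMap (𝓞 k) k) = C (c ^ 2) * f)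
    {x : ι × J → ℤ} (hx : x ∉ FixP ω P N Q) {π : k[X]}
    (hπ : Irreducible π) (hN : π.natDegree ≤ N) (hP : π ∣ P.map (av (kv ω x)))
    (r : k[X]) : ¬ π ∣ f - r ^ 2 := by
  intro hd
  apply hx
  haveI : Fact (Irreducible π) := ⟨hπ⟩
  let K := AdjoinRoot π
  haveI : FiniteDimensional k K := (AdjoinRoot.powerBasis hπ.ne_zero).finite
  haveI : CharZero K := charZero_of_injective_algebraMap (algebraMap k K).injective
  haveI : IsScalarTower ℚ k K := IsScalarTower.of_algebraMap_eq fun q => by simp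
  haveI : FiniteDimensional ℚ K := FiniteDimensional.trans ℚ k K
  haveI : NumberField K := { to_charZero := inferInstance, to_finiteDimensional := inferInstance }
  refine ⟨K, inferInstance, inferInstance, (algebraMap k K).comp (algebraMap (𝓞 k) k),
    AdjoinRoot.root π, algebraMap k K c * AdjoinRoot.mk π r, ?_, ?_, ?_⟩
  · rw [← Module.finrank_mul_finrank ℚ k K, card_J ω, mul_comm]
    refine Nat.mul_le_mul_right _ ?_
    have : Module.finrank k K = π.natDegree := by
      rw [(AdjoinRoot.powerBasis hπ.ne_zero).finrank, AdjoinRoot.powerBasis_dim]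
    rw [this]
    exact hN
  · rw [cv_kv, ← hom_av, ← eval₂_map]
    have h1 := AdjoinRoot.mk_eq_zero.2 hP
    rw [← AdjoinRoot.aeval_eq, aeval_def] at h1
    exact h1
  · rw [← eval₂_map, hQ, eval₂_mul, eval₂_C, mul_pow, map_pow]
    congr 1
    have h1 := AdjoinRoot.mk_eq_mk.2 hd
    rw [← map_pow, ← h1, ← AdjoinRoot.aeval_eq, aeval_def]

end nf

end Pool.Agent.Helper23K9.Q7
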