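import Pool.Agent.Helper23K9.Q6.Uni
import Pool.Agent.Helper23K9.Q6.Cnt
import Pool.Agent.R939.HI.Main

/-!
# Almost all surfaces are inert at the branch points of a fixed curve
-/

set_option autoImplicit false
set_option linter.all false

open Polynomial NumberField
open scoped Classical

namespace Pool.Agent.Helper23K9.Q7

open Pool.Agent.R939.EI (polA polP elt InertIn basis_elt)
open Pool.Agent.R939.HI (Ix aV bV kv box_ncard)
open Pool.Agent.W275.UB (D0 UD box_fin)
open Pool.Agent.Helper23K9.Q5 (el exists_den boxfin)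
open Pool.Agent.Helper23K9.Q6 (ZrU eln zrn lin_nsq card_fin1)

section fub

variable {α β : Type} [Fintype α] [Fintype β]

/-- Density zero in all the fibres, uniformly. -/
theorem fub (e : α → β) {S : Set (β → ℤ)} (he : Function.Injective e)
    {T : (β → ℤ) → Set (α → ℤ)} (hT : ZrU T)
    (hS : ∀ v ∈ S, ∀ z : β → ℤ, (∀ b, b ∉ Set.range e → z b = v b) → (fun a => v (e a)) ∈ T z) :
    D0 S := by
  intro ε hε
  obtain ⟨H0, hH⟩ := hT ε hε
  refine ⟨H0, fun H hHH => ?_⟩
  obtain ⟨A, hA⟩ : ∃ A : Finset (β → ℤ), A = (box_fin S H).toFinset := ⟨_, rfl⟩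
  have hAm : ∀ v, v ∈ A ↔ v ∈ S ∧ ∀ i, |v i| ≤ (H : ℤ) := fun v => by
    rw [hA, Set.Finite.mem_toFinset]
    rfl
  have hAc : ({v | v ∈ S ∧ ∀ i, |v i| ≤ (H : ℤ)} : Set (β → ℤ)).ncard = A.card := by
    rw [hA, Set.ncard_eq_toFinset_card _ (box_fin S H)]
  let g : (β → ℤ) → ({b : β // ¬ b ∈ Set.range e} → ℤ) := fun v b => v b
  let ex : ({b : β // ¬ b ∈ Set.range e} → ℤ) → (β → ℤ) :=
    fun z b => if h : ¬ b ∈ Set.range e then z ⟨b, h⟩ else 0
  have hfib : ∀ z ∈ A.image g, ((A.filter fun v => g v = z).card : ℝ) ≤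
      ε * (2 * H + 1) ^ Fintype.card α := by
    intro z _
    refine le_trans ?_ (hH H hHH (ex z))
    have hle : (A.filter fun v => g v = z).card ≤
        {x : α → ℤ | (∀ j, |x j| ≤ (H : ℤ)) ∧ x ∈ T (ex z)}.ncard := by
      have hinj : Set.InjOn (fun (v : β → ℤ) (a : α) => v (e a))
          ((A.filter fun v => g v = z : Finset (β → ℤ)) : Set (β → ℤ)) := by
        intro v hv w hw h
        rw [Finset.mem_coe, Finset.mem_filter] at hv hw
        funext b
        by_cases hb : b ∈ Set.range e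
        · obtain ⟨a, rfl⟩ := hb
          exact congrFun h a
        · have h1 := congrFun (hv.2.trans hw.2.symm) ⟨b, hb⟩
          exact h1
      rw [← Set.ncard_coe_finset, ← Set.ncard_image_of_injOn hinj]
      refine Set.ncard_le_ncard ?_ (boxfin _ H)
      rintro _ ⟨v, hv, rfl⟩
      rw [Finset.mem_coe, Finset.mem_filter, hAm] at hv
      refine ⟨fun j => hv.1.2 (e j), hS v hv.1.1 _ fun b hb => ?_⟩
      show (if h : ¬ b ∈ Set.range e then z ⟨b, h⟩ else 0) = v b
      rw [dif_pos hb, ← hv.2]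
    exact_mod_cast hle
  have himg : ((A.image g).card : ℝ) ≤
      (2 * H + 1 : ℝ) ^ Fintype.card {b : β // ¬ b ∈ Set.range e} := by
    have h1 : (A.image g).card ≤
        ({z : {b : β // ¬ b ∈ Set.range e} → ℤ | ∀ i, |z i| ≤ (H : ℤ)}).ncard := by
      rw [← Set.ncard_coe_finset]
      refine Set.ncard_le_ncard ?_ ?_
      · intro z hz
        rw [Finset.mem_coe, Finset.mem_image] at hz
        obtain ⟨v, hv, rfl⟩ := hz
        exact fun i => ((hAm v).1 hv).2 i
      · refine (box_fin (ι := {b : β // ¬ b ∈ Set.range e}) Set.univ H).subset ?_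
        intro z hz
        exact ⟨trivial, hz⟩
    rw [box_ncard] at h1
    exact_mod_cast h1
  have hcard : Fintype.card β = Fintype.card α + Fintype.card {b : β // ¬ b ∈ Set.range e} := by
    rw [Fintype.card_subtype_compl]
    have h3 : Fintype.card {b : β // b ∈ Set.range e} = Fintype.card α :=
      Set.card_range_of_injective he
    have h4 : Fintype.card {b : β // b ∈ Set.range e} ≤ Fintype.card β :=
      Fintype.card_subtype_le _
    omega
  have hsum : (A.card : ℝ) = ∑ z ∈ A.image g, ((A.filter fun v => g v = z).card : ℝ) := by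
    have := Finset.card_eq_sum_card_image g A
    exact_mod_cast this
  rw [hAc, hsum]
  calc ∑ z ∈ A.image g, ((A.filter fun v => g v = z).card : ℝ)
      ≤ (A.image g).card • (ε * (2 * H + 1 : ℝ) ^ Fintype.card α) :=
        Finset.sum_le_card_nsmul _ _ _ hfib
    _ = ((A.image g).card : ℝ) * (ε * (2 * H + 1 : ℝ) ^ Fintype.card α) := nsmul_eq_mul _ _
    _ ≤ (2 * H + 1 : ℝ) ^ Fintype.card {b : β // ¬ b ∈ Set.range e} *
        (ε * (2 * H + 1 : ℝ) ^ Fintype.card α) :=
        mul_le_mul_of_nonneg_right himg (by positivity)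
    _ = ε * (2 * H + 1 : ℝ) ^ Fintype.card β := by
        rw [hcard, pow_add]
        ring

end fub

theorem sq_int {M : Type} [Field M] [NumberField M] {G : 𝓞 M} {y : M}
    (h : algebraMap (𝓞 M) M G = y ^ 2) : IsSquare G := by
  obtain ⟨w0, hw0⟩ : ∃ w0 : 𝓞 M, algebraMap (𝓞 M) M w0 = y := by
    apply IsIntegrallyClosed.exists_algebraMap_eq_of_isIntegral_pow (n := 2) (by norm_num)
    rw [← h]
    exact isIntegral_algebraMap
  refine ⟨w0, ?_⟩
  apply IsFractionRing.injective (𝓞 M) M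
  rw [h, map_mul, hw0, pow_two]

section zu

variable {k M I : Type} [Field k] [NumberField k] [Field M] [NumberField M] [Algebra k M]
  {J : Type} [Fintype J] (B : Module.Basis J ℤ (𝓞 k))

theorem zu_sq {ν : ℤ} (hν : ν ≠ 0) (w : I → 𝓞 M) : ZrU fun i => {x : Fin 1 × J → ℤ |
    IsSquare (w i + (ν : 𝓞 M) * algebraMap (𝓞 k) (𝓞 M) (eln B x 0))} := by
  refine (zrn (M := M) B (δ := 1 / 4) (by norm_num) (by norm_num) (N := 2 * ν.natAbs)
    (mul_ne_zero (by norm_num) (Int.natAbs_ne_zero.2 hν))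
    (fun (i : I) p φ => {y : Fin 1 → ZMod p |
      y 0 ∈ {s : ZMod p | ¬ IsSquare (φ (w i) + (ν : ZMod p) * s)}})
    (fun p _ i φ hp hNp => ?_)).mono ?_
  · rw [card_fin1, pow_one]
    have hp2 : p ≠ 2 := by
      rintro rfl
      exact hp (dvd_mul_right _ _)
    have hpn : (ν : ZMod p) ≠ 0 := by
      intro h0
      rw [ZMod.intCast_zmod_eq_zero_iff_dvd] at h0
      exact hp ((Int.natCast_dvd.1 h0).mul_left _)
    have h1 := lin_nsq hp2 hpn (φ (w i))
    have h2 := (Fact.out : p.Prime).two_le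
    have h5 : p ≤ 4 * {s : ZMod p | ¬ IsSquare (φ (w i) + (ν : ZMod p) * s)}.ncard := by omega
    have h6 : (p : ℝ) ≤
        4 * (({s : ZMod p | ¬ IsSquare (φ (w i) + (ν : ZMod p) * s)}.ncard : ℕ) : ℝ) := by
      exact_mod_cast h5
    linarith
  · intro i x hx p φ hp hmem
    haveI : Fact p.Prime := ⟨hp⟩
    apply hmem
    obtain ⟨w0, hw0⟩ := hx
    refine ⟨φ w0, ?_⟩
    rw [← map_mul, ← hw0]
    simp only [map_add, map_mul, map_intCast]

end zu

end Pool.Agent.Helper23K9.Q7
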