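import Pool.Agent.Helper23K9.Q7.Cor

/-!
The corestriction of invariant classes is invariant.
-/

set_option autoImplicit false
set_option linter.all false

open Polynomial IsDedekindDomain WeierstrassCurve WeierstrassCurve.Affine
open scoped Classical IntermediateField

namespace Pool.Agent.Helper23K9.Q7

open Pool.Agent.TH115.GD (Pt act incl rs ak Sep Comp CompInf IsCoc act_act rs_mul act_locConst
  LocTriv exists_conj exists_restrict Preserves LocallyTrivial)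
open Pool.Agent.Helper7K9.T3 (IsTM IsTC IsInv)

universe u

section inv

variable {K F Ω : Type u} [Field K] [Field F] [Field Ω] [Algebra K F] [Algebra F Ω] [Algebra K Ω]
  [IsScalarTower K F Ω] {W : WeierstrassCurve K} {r : Ω} {t : Ω ≃ₐ[F] Ω} {ℓ : ℕ}

theorem cor_smul (S : Sg r t) {f g : (Ω ≃ₐ[F] Ω) → Pt W Ω} {n : ℕ}
    (h : ∀ σ, σ r = r → n • f σ = g σ) (σ : Ω ≃ₐ[F] Ω) : n • cor W r t f σ = cor W r t g σ := by
  have ht := S.neg
  have hti := inv_neg' ht
  by_cases hσ : σ r = r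
  · rw [cor_pos hσ, cor_pos hσ, smul_add, ← map_nsmul, h σ hσ,
      h _ (mul_nn (mul_np hti hσ) ht)]
  · have hσ' := S.neg_of hσ
    rw [cor_neg hσ, cor_neg hσ, smul_add, ← map_nsmul, h _ (mul_nn hσ' ht),
      h _ (mul_nn hti hσ')]

theorem cor_zero (S : Sg r t) {f : (Ω ≃ₐ[F] Ω) → Pt W Ω} (h : ∀ σ, σ r = r → f σ = 0)
    (σ : Ω ≃ₐ[F] Ω) : cor W r t f σ = 0 := by
  have ht := S.neg
  have hti := inv_neg' ht
  by_cases hσ : σ r = r
  · rw [cor_pos hσ, h σ hσ, h _ (mul_nn (mul_np hti hσ) ht), map_zero, add_zero]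
  · have hσ' := S.neg_of hσ
    rw [cor_neg hσ, h _ (mul_nn hσ' ht), h _ (mul_nn hti hσ'), map_zero, add_zero]

/-- The corestriction of a cocycle with values in the Tate module. -/
theorem tc_cor [IsGalois F Ω] (S : Sg r t) {c : ℕ → (Ω ≃ₐ[F] Ω) → Pt W Ω}
    (hc : ∀ n, IsCocOver W r (c n)) (h0 : ∀ σ, σ r = r → c 0 σ = 0)
    (hm : ∀ n σ, σ r = r → ℓ • c (n + 1) σ = c n σ) : IsTC ℓ W (fun n => cor W r t (c n)) :=
  ⟨fun n => (hc n).cor S, cor_zero S h0, fun n σ => cor_smul S (hm n) σ⟩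

theorem ak_comm (τ : Ω ≃ₐ[K] Ω) {σ σ' : Ω ≃ₐ[F] Ω} (h : ∀ x, τ (σ' x) = σ (τ x)) (X : Pt W Ω) :
    act W (ak τ) (act W (rs K σ') X) = act W (rs K σ) (act W (ak τ) X) := by
  have h1 : (ak τ).comp (rs K σ') = (rs K σ).comp (ak τ) := AlgHom.ext fun x => h x
  rw [act_act, act_act, h1]

theorem rel_mul {τ : Ω ≃ₐ[K] Ω} {σ σ' ρ ρ' : Ω ≃ₐ[F] Ω} (h : ∀ x, τ (σ' x) = σ (τ x))
    (h' : ∀ x, τ (ρ' x) = ρ (τ x)) : ∀ x, τ ((σ' * ρ') x) = (σ * ρ) (τ x) := by
  intro x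
  rw [AlgEquiv.mul_apply, AlgEquiv.mul_apply, h, h']

theorem rel_inv {τ : Ω ≃ₐ[K] Ω} {σ σ' : Ω ≃ₐ[F] Ω} (h : ∀ x, τ (σ' x) = σ (τ x)) :
    ∀ x, τ (σ'⁻¹ x) = σ⁻¹ (τ x) := by
  intro x
  have h1 := h (σ'⁻¹ x)
  rw [← AlgEquiv.mul_apply σ', mul_inv_cancel, AlgEquiv.one_apply] at h1
  rw [h1, ← AlgEquiv.mul_apply, inv_mul_cancel, AlgEquiv.one_apply]

theorem rel_sign {τ : Ω ≃ₐ[K] Ω} (hτ : τ r = r) {σ σ' : Ω ≃ₐ[F] Ω}
    (h : ∀ x, τ (σ' x) = σ (τ x)) : σ' r = r ↔ σ r = r := by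
  have h1 := h r
  rw [hτ] at h1
  constructor
  · intro h2
    rw [← h1, h2, hτ]
  · intro h2
    rw [h2] at h1
    exact τ.injective (h1.trans hτ.symm)

/-- The invariance under the automorphisms which fix `r`. -/
theorem inv_pos_cor [IsGalois F Ω] [IsSepClosed Ω] (hpres : Preserves K F Ω) (S : Sg r t) {c : ℕ → (Ω ≃ₐ[F] Ω) → Pt W Ω}
    (hc : ∀ n, IsCocOver W r (c n)) (h0 : ∀ σ, σ r = r → c 0 σ = 0)
    (hm : ∀ n σ, σ r = r → ℓ • c (n + 1) σ = c n σ) (hi : IsInvOver W r ℓ c)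
    {τ : Ω ≃ₐ[K] Ω} (hτ : τ r = r) : ∃ (m : ℕ) (Q : ℕ → Pt W Ω), IsTM ℓ W Q ∧
    ∀ (n : ℕ) (σ σ' : Ω ≃ₐ[F] Ω), (∀ x, τ (σ' x) = σ (τ x)) →
      ℓ ^ m • (act W (ak τ) (cor W r t (c n) σ') - cor W r t (c n) σ) =
        act W (rs K σ) (Q n) - Q n := by
  obtain ⟨m, Q, hQ, hrel⟩ := hi τ hτ
  have ht := S.neg
  have hti := inv_neg' ht
  -- the conjugate of `t`
  obtain ⟨s, hs⟩ := exists_conj hpres τ.symm t
  have hst : ∀ x, τ (t x) = s (τ x) := by
    intro x
    have h1 := hs (τ x)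
    rw [τ.symm_apply_apply] at h1
    rw [← h1, τ.apply_symm_apply]
  have hsr : s r = -r := by
    have h1 := hst r
    rw [ht, map_neg, hτ] at h1
    exact h1.symm
  have hsi := inv_neg' hsr
  have hts : (t⁻¹ * s) r = r := mul_nn hti hsr
  refine ⟨m, fun n => Q n + act W (rs K s) (Q n) + ℓ ^ m • act W (rs K t) (c n (t⁻¹ * s)),
    ⟨?_, fun n => ?_⟩, fun n σ σ' h => ?_⟩
  · show Q 0 + act W (rs K s) (Q 0) + ℓ ^ m • act W (rs K t) (c 0 (t⁻¹ * s)) = 0
    rw [hQ.zero, map_zero, h0 _ hts, map_zero, smul_zero, add_zero, add_zero]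
  · show ℓ • (Q (n + 1) + act W (rs K s) (Q (n + 1)) + ℓ ^ m • act W (rs K t) (c (n + 1) (t⁻¹ * s))) =
      Q n + act W (rs K s) (Q n) + ℓ ^ m • act W (rs K t) (c n (t⁻¹ * s))
    rw [smul_add, smul_add, hQ.mul, ← map_nsmul, hQ.mul, smul_comm, ← map_nsmul, hm n _ hts]
  · have e0 : cor W r t (c n) σ = cor W r s (c n) σ -
        (act W (rs K σ) (act W (rs K t) (c n (t⁻¹ * s))) - act W (rs K t) (c n (t⁻¹ * s))) := by
      rw [cor_rep (hc n) S hsr σ]
      abel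
    have e1 : ℓ ^ m • (act W (ak τ) (cor W r t (c n) σ') - cor W r s (c n) σ) =
        act W (rs K σ) (Q n + act W (rs K s) (Q n)) - (Q n + act W (rs K s) (Q n)) := by
      by_cases hσ : σ r = r
      · have hσ' := (rel_sign hτ h).2 hσ
        have h1 := hrel n σ σ' hσ h
        have h2 := hrel n (s⁻¹ * σ * s) (t⁻¹ * σ' * t) (mul_nn (mul_np hsi hσ) hsr)
          (rel_mul (rel_mul (rel_inv hst) h) hst)
        rw [cor_pos hσ', cor_pos hσ, map_add, ak_comm τ hst]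
        have h3 : ℓ ^ m • (act W (ak τ) (c n σ') +
            act W (rs K s) (act W (ak τ) (c n (t⁻¹ * σ' * t))) -
            (c n σ + act W (rs K s) (c n (s⁻¹ * σ * s)))) =
            ℓ ^ m • (act W (ak τ) (c n σ') - c n σ) +
            act W (rs K s) (ℓ ^ m • (act W (ak τ) (c n (t⁻¹ * σ' * t)) -
              c n (s⁻¹ * σ * s))) := by
          rw [map_nsmul, map_sub, ← smul_add]
          congr 1
          abel
        rw [h3, h1, h2, map_sub, ← am s]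
        have e3 : s * (s⁻¹ * σ * s) = σ * s := by group
        rw [e3, am, map_add]
        abel
      · have hσn := S.neg_of hσ
        have hσ' : ¬ σ' r = r := fun h' => hσ ((rel_sign hτ h).1 h')
        have hσn' := S.neg_of hσ'
        have h1 := hrel n (σ * s) (σ' * t) (mul_nn hσn hsr) (rel_mul h hst)
        have h2 := hrel n (s⁻¹ * σ) (t⁻¹ * σ') (mul_nn hsi hσn) (rel_mul (rel_inv hst) h)
        rw [cor_neg hσ', cor_neg hσ, map_add, ak_comm τ hst]
        have h3 : ℓ ^ m • (act W (ak τ) (c n (σ' * t)) +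
            act W (rs K s) (act W (ak τ) (c n (t⁻¹ * σ'))) -
            (c n (σ * s) + act W (rs K s) (c n (s⁻¹ * σ)))) =
            ℓ ^ m • (act W (ak τ) (c n (σ' * t)) - c n (σ * s)) +
            act W (rs K s) (ℓ ^ m • (act W (ak τ) (c n (t⁻¹ * σ')) -
              c n (s⁻¹ * σ))) := by
          rw [map_nsmul, map_sub, ← smul_add]
          congr 1
          abel
        rw [h3, h1, h2, map_sub, ← am s]
        have e3 : s * (s⁻¹ * σ) = σ := by group
        rw [e3, am, map_add]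
        abel
    rw [e0]
    have e2 : act W (ak τ) (cor W r t (c n) σ') - (cor W r s (c n) σ -
        (act W (rs K σ) (act W (rs K t) (c n (t⁻¹ * s))) - act W (rs K t) (c n (t⁻¹ * s)))) =
        (act W (ak τ) (cor W r t (c n) σ') - cor W r s (c n) σ) +
        (act W (rs K σ) (act W (rs K t) (c n (t⁻¹ * s))) - act W (rs K t) (c n (t⁻¹ * s))) := by
      abel
    show _ = act W (rs K σ) (Q n + act W (rs K s) (Q n) + ℓ ^ m • act W (rs K t) (c n (t⁻¹ * s))) -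
      (Q n + act W (rs K s) (Q n) + ℓ ^ m • act W (rs K t) (c n (t⁻¹ * s)))
    rw [e2, smul_add, e1, smul_sub, ← map_nsmul, map_add (act W (rs K σ))
      (Q n + act W (rs K s) (Q n))]
    abel

/-- **The corestriction of an invariant class is invariant.** -/
theorem inv_cor [IsGalois F Ω] [IsSepClosed Ω] (hpres : Preserves K F Ω) (S : Sg r t)
    {c : ℕ → (Ω ≃ₐ[F] Ω) → Pt W Ω} (hK : ∀ τ : Ω ≃ₐ[K] Ω, τ r = r ∨ τ r = -r)
    (hc : ∀ n, IsCocOver W r (c n)) (h0 : ∀ σ, σ r = r → c 0 σ = 0)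
    (hm : ∀ n σ, σ r = r → ℓ • c (n + 1) σ = c n σ) (hi : IsInvOver W r ℓ c) :
    IsInv ℓ W (fun n => cor W r t (c n)) := by
  intro τ
  rcases hK τ with hτ | hτ
  · exact inv_pos_cor hpres S hc h0 hm hi hτ
  · have ht := S.neg
    have hti := inv_neg' ht
    obtain ⟨g, hg⟩ : ∃ g : Ω ≃ₐ[K] Ω, ∀ x, g x = τ (t⁻¹ x) :=
      ⟨(t⁻¹.restrictScalars K).trans τ, fun x => rfl⟩
    have hgr : g r = r := by
      rw [hg, hti, map_neg, hτ, neg_neg]
    obtain ⟨m, Q, hQ, hrel⟩ := inv_pos_cor hpres S hc h0 hm hi hgr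
    have hT := tc_cor (ℓ := ℓ) S hc h0 hm
    refine ⟨m, fun n => Q n + ℓ ^ m • act W (ak g) (cor W r t (c n) t), ⟨?_, fun n => ?_⟩,
      fun n σ σ' h => ?_⟩
    · show Q 0 + ℓ ^ m • act W (ak g) (cor W r t (c 0) t) = 0
      rw [hQ.zero, cor_zero S h0, map_zero, smul_zero, add_zero]
    · show ℓ • (Q (n + 1) + ℓ ^ m • act W (ak g) (cor W r t (c (n + 1)) t)) =
        Q n + ℓ ^ m • act W (ak g) (cor W r t (c n) t)
      rw [smul_add, hQ.mul, smul_comm, ← map_nsmul, cor_smul S (hm n)]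
    · have h1 : ∀ x, g ((t * σ' * t⁻¹) x) = σ (g x) := by
        intro x
        rw [hg, hg, ← h, ← AlgEquiv.mul_apply]
        congr 1
        rw [← AlgEquiv.mul_apply]
        congr 1
        group
      have h2 := hrel n σ (t * σ' * t⁻¹) h1
      have hcoc := (hc n).cor S
      show ℓ ^ m • (act W (ak τ) (cor W r t (c n) σ') - cor W r t (c n) σ) =
        act W (rs K σ) (Q n + ℓ ^ m • act W (ak g) (cor W r t (c n) t)) -
          (Q n + ℓ ^ m • act W (ak g) (cor W r t (c n) t))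
      obtain ⟨φ, hφ⟩ : ∃ φ, φ = cor W r t (c n) := ⟨_, rfl⟩
      rw [← hφ] at h2 hcoc ⊢
      have h3 : φ 1 = 0 := by
        have := hcoc.mul 1 1
        rw [mul_one, a1] at this
        have h4 : φ 1 + 0 = φ 1 + φ 1 := by rw [add_zero]; exact this
        exact (add_left_cancel h4).symm
      have h5 : act W (rs K t) (φ t⁻¹) = -φ t := by
        have := hcoc.mul t t⁻¹
        rw [mul_inv_cancel, h3] at this
        exact (neg_eq_of_add_eq_zero_right this.symm).symm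
      have h6 : act W (rs K t) (φ σ') =
          φ (t * σ' * t⁻¹) + act W (rs K (t * σ' * t⁻¹)) (φ t) - φ t := by
        have e1 : σ' = t⁻¹ * ((t * σ' * t⁻¹) * t) := by group
        nth_rewrite 1 [e1]
        rw [hcoc.mul, hcoc.mul _ t, map_add, h5, ← am t t⁻¹, mul_inv_cancel, a1]
        abel
      have h7 : act W (ak τ) (φ σ') = act W (ak g) (act W (rs K t) (φ σ')) := by
        have h8 : (ak g).comp (rs K t) = ak τ := AlgHom.ext fun x => by
          show g (t x) = τ x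
          rw [hg, ← AlgEquiv.mul_apply, inv_mul_cancel, AlgEquiv.one_apply]
        rw [act_act, h8]
      rw [h7, h6, map_sub, map_add, ak_comm g h1]
      have h9 : act W (ak g) (φ (t * σ' * t⁻¹)) + act W (rs K σ) (act W (ak g) (φ t)) -
          act W (ak g) (φ t) - φ σ = (act W (ak g) (φ (t * σ' * t⁻¹)) - φ σ) +
          (act W (rs K σ) (act W (ak g) (φ t)) - act W (ak g) (φ t)) := by abel
      rw [h9, smul_add, h2, smul_sub, ← map_nsmul, map_add (act W (rs K σ)) (Q n)]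
      abel

end inv

end Pool.Agent.Helper23K9.Q7
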