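import Pool.Agent.Helper23K9.Q7.Main
import Pool.Agent.R939.PP.Mon

/-!
# The Tate conjecture at 2 over hyperelliptic curves
-/

set_option autoImplicit false
set_option linter.all false

open Polynomial IsDedekindDomain WeierstrassCurve WeierstrassCurve.Affine NumberField
open scoped Classical IntermediateField

namespace Pool.Agent.Helper23K9.Q7

open Pool.Agent.TH115.GD (Pt act incl rs ak Sep Comp CompInf IsCoc act_act rs_mul act_locConst
  LocTriv exists_conj exists_restrict Preserves LocallyTrivial IsTower preserves TateAtTwo crvT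
  NotNorm)
open Pool.Agent.Helper7K9.T3 (IsTM IsTC IsInv TateAt)
open Pool.Agent.Helper23K9.Q5 (qtw tw tw_act tw_neg disc_bc)
open Pool.Agent.R939.EI (OnlyTrivial InertIn Inert twist_main polA)
open Pool.Agent.R939.PP (TateTM mon_twists)

section stmt

variable {K F : Type} [Field K] [Field F] [Algebra K F]

/-- The Tate conjecture at the prime `ℓ` for the elliptic surface with generic fibre `W` over the
curve with the function field `K(r)`: the classes in the `ℓ`-adic Selmer group `V_ℓ Sel(W / F(r))`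
which are fixed by the Galois group come from `W(K(r))`. If `c` is a cocycle of `Gal(Sep F / F(r))`
with values in `T_ℓ W` which is trivial at all places of `F(r)`, and the class of `c` is fixed by
`Gal(Sep F / K(r))`, then there is an `m` such that for every `n` the cocycle `ℓ ^ m c n` is given by
a point of `W(K(r))`. -/
def TateOverQ (ℓ : ℕ) (k' : Type) [Field k'] [Algebra k'[X] F] [IsFractionRing k'[X] F]
    (W : WeierstrassCurve K) (r : Sep F) : Prop :=
  ∀ c : ℕ → (Sep F ≃ₐ[F] Sep F) → Pt W (Sep F), (∀ n, IsCocOver W r (c n)) →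
    (∀ σ, σ r = r → c 0 σ = 0) → (∀ n σ, σ r = r → ℓ • c (n + 1) σ = c n σ) →
    (∀ n, LocallyTrivialOver k' W r (c n)) → IsInvOver W r ℓ c →
    ∃ m : ℕ, ∀ n, FromPoint ℓ n W r K⟮r⟯.val (fun σ => ℓ ^ m • c n σ)

end stmt

section main

variable {k k' K F : Type} [Field k] [Field k'] [Algebra k k'] [Field K] [Algebra k[X] K]
    [Field F] [Algebra k'[X] F] [IsFractionRing k'[X] F] [Algebra K F]

theorem tateAt_two {W : WeierstrassCurve K} (h : TateAtTwo (F := F) k' W) :
    TateAt (F := F) 2 k' W := by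
  intro c hc hloc hi n
  refine h c ⟨hc.coc, hc.zero, hc.mul⟩ hloc ?_ n
  intro τ
  obtain ⟨m, Q, hQ, hr⟩ := hi τ
  exact ⟨m, Q, ⟨hQ.zero, hQ.mul⟩, hr⟩

/-- **The Tate conjecture over a double cover of the projective line, rational version.** -/
theorem tate_over_two (hT : IsTower k k' K F) (h2k : (2 : k) ≠ 0)
    {W : WeierstrassCurve K} (hE : W.Δ ≠ 0) {d : K} {r : Sep F}
    (hr : r ^ 2 = algebraMap K (Sep F) d) (hrF : ∀ x : F, algebraMap F (Sep F) x ≠ r)
    (h1 : TateAt (F := F) 2 k' W) (hd1 : TateAt (F := F) 2 k' (qtw d W)) :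
    TateOverQ 2 k' W r := by
  haveI := hT.sep
  haveI := hT.fracK
  have hpres : Preserves K F (Sep F) := preserves hT.map
  have h2 : (2 : Sep F) ≠ 0 := by
    have h2K : (2 : K) ≠ 0 := by
      have : (2 : K) = algebraMap k[X] K (C 2) := by rw [map_ofNat, map_ofNat]
      rw [this, Ne, map_eq_zero_iff _ (IsFractionRing.injective k[X] K)]
      exact C_ne_zero.2 h2k
    have : (2 : Sep F) = algebraMap K (Sep F) 2 := (map_ofNat _ _).symm
    rw [this]
    exact (_root_.map_ne_zero _).2 h2K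
  have hr0 : r ≠ 0 := by
    rintro rfl
    exact hrF 0 (map_zero _)
  have hne : r ≠ -r := by
    intro h
    have h3 : (2 : Sep F) * r = 0 := by
      rw [two_mul]
      nth_rewrite 1 [h]
      exact neg_add_cancel r
    exact (mul_ne_zero h2 hr0) h3
  have hK : ∀ τ : Sep F ≃ₐ[K] Sep F, τ r = r ∨ τ r = -r := by
    intro τ
    apply sq_eq_sq_iff_eq_or_eq_neg.1
    rw [← map_pow, hr, τ.commutes]
  have hpm : ∀ σ : Sep F ≃ₐ[F] Sep F, σ r = r ∨ σ r = -r := by
    intro σ
    apply sq_eq_sq_iff_eq_or_eq_neg.1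
    rw [← map_pow, hr, IsScalarTower.algebraMap_apply K F (Sep F), σ.commutes]
  obtain ⟨t, ht⟩ : ∃ t : Sep F ≃ₐ[F] Sep F, t r = -r := by
    by_contra hcon
    push Not at hcon
    have h3 : ∀ σ : Sep F ≃ₐ[F] Sep F, σ r = r := fun σ => (hpm σ).resolve_right (hcon σ)
    obtain ⟨x, hx⟩ := (InfiniteGalois.mem_range_algebraMap_iff_fixed r).2 h3
    exact hrF x hx
  have S : Sg r t := ⟨hpm, hne, ht⟩
  intro c hc h0 hm hloc hi
  refine ⟨1, fun n => ?_⟩
  have hA : ∀ n, IsCocOver (qtw d W) r (fun σ => tw hE h2 hr hr0 (c n σ)) :=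
    fun n => coc_twist hE h2 hr hr0 (hc n)
  have hA0 : ∀ σ : Sep F ≃ₐ[F] Sep F, σ r = r → tw hE h2 hr hr0 (c 0 σ) = 0 := fun σ hσ => by
    rw [h0 σ hσ, map_zero]
  have hAm : ∀ n (σ : Sep F ≃ₐ[F] Sep F), σ r = r →
      2 • tw hE h2 hr hr0 (c (n + 1) σ) = tw hE h2 hr hr0 (c n σ) := fun n σ hσ => by
    rw [← map_nsmul, hm n σ hσ]
  have hAi := inv_twist (ℓ := 2) hE h2 hr hr0 hi
  obtain ⟨P, R, hR, hcR⟩ := h1 _ (tc_cor (ℓ := 2) S hc h0 hm) (fun n => lt_cor (hc n) S (hloc n))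
    (inv_cor hpres S hK hc h0 hm hi) n
  obtain ⟨P', R', hR', hcR'⟩ := hd1 _ (tc_cor (ℓ := 2) S hA hA0 hAm)
    (fun n => lt_cor (hA n) S ⟨fun v => loc_twist hE h2 hr hr0 ((hloc n).1 v),
      loc_twist hE h2 hr hr0 (hloc n).2⟩)
    (inv_cor hpres S hK hA hA0 hAm hAi) n
  obtain ⟨PL, hPL⟩ := pt_over hE h2 hr hr0 P P' 1
  unfold FromPoint
  refine ⟨PL, R + (tw hE h2 hr hr0).symm R', ?_, fun σ hσ => ?_⟩
  · rw [hPL, one_smul, smul_add, hR, ← map_nsmul, hR']
  · have e1 := two_eq hE h2 hr hr0 S (c n) hσ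
    have e2 : cor W r t (c n) σ = act W (rs K σ) R - R := hcR σ
    have e3 : cor (qtw d W) r t (fun σ => tw hE h2 hr hr0 (c n σ)) σ =
        act (qtw d W) (rs K σ) R' - R' := hcR' σ
    have e4 : (tw hE h2 hr hr0).symm (act (qtw d W) (rs K σ) R') =
        act W (rs K σ) ((tw hE h2 hr hr0).symm R') := by
      apply (tw hE h2 hr hr0).injective
      rw [AddEquiv.apply_symm_apply, ← tw_pos hE h2 hr hr0 (rs K σ) hσ,
        AddEquiv.apply_symm_apply]
    rw [e2, e3, map_sub, e4] at e1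
    show 2 ^ 1 • c n σ = _
    rw [pow_one, ← e1, map_add]
    abel

end main

theorem boxfin0 {k : Type} [Field k] [NumberField k] {J : Type} [Fintype J]
    (B : Module.Basis J ℤ (𝓞 k)) (H : ℕ) : {t : 𝓞 k | ∀ j, |B.repr t j| ≤ (H : ℤ)}.Finite := by
  refine Set.Finite.of_finite_image (f := fun t => (B.repr t : J → ℤ)) ?_ ?_
  · refine Set.Finite.subset (Set.Finite.pi' fun _ : J => Set.finite_Icc (-(H : ℤ)) (H : ℤ)) ?_
    rintro _ ⟨t, ht, rfl⟩ j
    exact abs_le.1 (ht j)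
  · intro s _ t _ h
    exact B.repr.injective (DFunLike.coe_injective h)

section two

variable {k k' K F : Type} [Field k] [Field k'] [Algebra k k'] [Field K] [Algebra k[X] K]
    [Field F] [Algebra k'[X] F] [IsFractionRing k'[X] F] [Algebra K F]

theorem qtw_crvT (A B d : K) : qtw d (crvT A B) = crvT (4 * d * A) (16 * d ^ 2 * B) := by
  apply WeierstrassCurve.ext
  · rfl
  · show d * ((0 : K) ^ 2 + 4 * A) = 4 * d * A
    ring
  · rfl
  · show 8 * d ^ 2 * (2 * B + 0 * 0) = 16 * d ^ 2 * B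
    ring
  · show 16 * d ^ 3 * ((0 : K) ^ 2 + 4 * 0) = 0
    ring

theorem crvT_disc (A B : K) : (crvT A B).Δ = 16 * B ^ 2 * (A ^ 2 - 4 * B) := by
  simp only [crvT, WeierstrassCurve.Δ, WeierstrassCurve.b₂, WeierstrassCurve.b₄,
    WeierstrassCurve.b₆, WeierstrassCurve.b₈]
  ring

theorem comp_ne {p h : k[X]} (hp : p ≠ 0) (hh : h.natDegree ≠ 0) : p.comp h ≠ 0 := by
  intro h0
  rw [comp_eq_zero_iff] at h0
  rcases h0 with h0 | ⟨-, h0⟩
  · exact hp h0
  · apply hh
    rw [h0, natDegree_C]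

/-- From the Tate conjecture for `E` and for the twist by `4 c D`. -/
theorem over_of0 (hT : IsTower k k' K F) (h2 : (2 : k) ≠ 0) {a b D h : k[X]} {c : k} (hb : b ≠ 0)
    (hd : a ^ 2 - 4 * b ≠ 0) (hodd : Odd h.natDegree)
    (h1 : TateAtTwo (F := F) k' (crvT (algebraMap k[X] K (a.comp h))
      (algebraMap k[X] K (b.comp h))))
    (htw : TateAtTwo (F := F) k' (crvT (algebraMap k[X] K ((C (4 * c) * (a * D)).comp h))
      (algebraMap k[X] K ((C ((4 * c) ^ 2) * (b * D ^ 2)).comp h)))) {r : Sep F}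
    (hr : r ^ 2 = algebraMap K (Sep F) (algebraMap k[X] K ((C c * D).comp h)))
    (hrF : ∀ x : F, algebraMap F (Sep F) x ≠ r) :
    TateOverQ 2 k' (crvT (algebraMap k[X] K (a.comp h)) (algebraMap k[X] K (b.comp h))) r := by
  haveI := hT.fracK
  have hh0 : h.natDegree ≠ 0 := by
    intro h0
    rw [h0] at hodd
    exact absurd hodd (by decide)
  have hinj := IsFractionRing.injective k[X] K
  have h16 : (16 : K) ≠ 0 := by
    have h3 : (16 : K) = algebraMap k[X] K (C 2 ^ 4) := by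
      rw [map_pow, map_ofNat, map_ofNat]
      norm_num
    rw [h3, Ne, map_eq_zero_iff _ hinj]
    exact pow_ne_zero 4 (C_ne_zero.2 h2)
  have hE : (crvT (algebraMap k[X] K (a.comp h)) (algebraMap k[X] K (b.comp h))).Δ ≠ 0 := by
    rw [crvT_disc]
    have e1 : algebraMap k[X] K (a.comp h) ^ 2 - 4 * algebraMap k[X] K (b.comp h) =
        algebraMap k[X] K ((a ^ 2 - 4 * b).comp h) := by
      have e4 : (4 : k[X]).comp h = 4 := by
        have h5 : (4 : k[X]) = C 4 := by rw [map_ofNat]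
        rw [h5, C_comp]
      rw [sub_comp, mul_comp, pow_comp, e4, map_sub, map_mul, map_pow, map_ofNat]
    rw [e1]
    refine mul_ne_zero (mul_ne_zero h16 (pow_ne_zero 2 ?_)) ?_
    · rw [Ne, map_eq_zero_iff _ hinj]
      exact comp_ne hb hh0
    · rw [Ne, map_eq_zero_iff _ hinj]
      exact comp_ne hd hh0
  refine tate_over_two hT h2 hE hr hrF (tateAt_two h1) (tateAt_two ?_)
  rw [qtw_crvT]
  have e2 : 4 * algebraMap k[X] K ((C c * D).comp h) * algebraMap k[X] K (a.comp h) =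
      algebraMap k[X] K ((C (4 * c) * (a * D)).comp h) := by
    have h4 : (4 : K) = algebraMap k[X] K (C 4) := by rw [map_ofNat, map_ofNat]
    rw [h4, ← map_mul, ← map_mul]
    congr 1
    simp only [mul_comp, C_comp, C_mul]
    ring
  have e3 : 16 * algebraMap k[X] K ((C c * D).comp h) ^ 2 * algebraMap k[X] K (b.comp h) =
      algebraMap k[X] K ((C ((4 * c) ^ 2) * (b * D ^ 2)).comp h) := by
    have h4 : (16 : K) = algebraMap k[X] K (C 4 ^ 2) := by
      rw [map_pow, map_ofNat, map_ofNat]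
      norm_num
    rw [h4, ← map_pow (algebraMap k[X] K) ((C c * D).comp h), ← map_mul, ← map_mul]
    congr 1
    simp only [mul_comp, pow_comp, C_comp, C_mul, C_pow]
    ring
  rw [e2, e3]
  exact htw

/-- From the Tate conjecture for the twist by `4 c D`. -/
theorem over_of (hT : IsTower k k' K F) (h2 : (2 : k) ≠ 0) {a b D h : k[X]} {c : k} (hb : b ≠ 0)
    (hd : a ^ 2 - 4 * b ≠ 0) (hNb : NotNorm b) (hNd : NotNorm (a ^ 2 - 4 * b))
    (hO : OnlyTrivial a b) (hO' : OnlyTrivial (-2 * a) (a ^ 2 - 4 * b)) (hodd : Odd h.natDegree)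
    (hi : Inert (b * (a ^ 2 - 4 * b)) h)
    (htw : TateAtTwo (F := F) k' (crvT (algebraMap k[X] K ((C (4 * c) * (a * D)).comp h))
      (algebraMap k[X] K ((C ((4 * c) ^ 2) * (b * D ^ 2)).comp h)))) {r : Sep F}
    (hr : r ^ 2 = algebraMap K (Sep F) (algebraMap k[X] K ((C c * D).comp h)))
    (hrF : ∀ x : F, algebraMap F (Sep F) x ≠ r) :
    TateOverQ 2 k' (crvT (algebraMap k[X] K (a.comp h)) (algebraMap k[X] K (b.comp h))) r := by
  refine over_of0 hT h2 hb hd hodd ?_ htw hr hrF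
  have h3 := twist_main (D := 1) (c := 1) hT h2 hb hd hNb hNd hO hO'
    ⟨one_ne_zero, fun π hπ hdv => absurd (isUnit_of_dvd_one hdv) hπ.not_isUnit⟩ one_ne_zero hodd
    (by rw [mul_one]; exact hi)
  simpa only [one_pow, map_one, one_mul, mul_one] using h3

/-- The criterion. -/
theorem crit_two (hT : IsTower k k' K F) (h2 : (2 : k) ≠ 0) {a b D h : k[X]} {c : k} (hb : b ≠ 0)
    (hd : a ^ 2 - 4 * b ≠ 0) (hNb : NotNorm b) (hNd : NotNorm (a ^ 2 - 4 * b))
    (hO : OnlyTrivial a b) (hO' : OnlyTrivial (-2 * a) (a ^ 2 - 4 * b)) (hD : InertIn a b D)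
    (hc : c ≠ 0) (hodd : Odd h.natDegree) (hi : Inert (b * (a ^ 2 - 4 * b) * D) h) {r : Sep F}
    (hr : r ^ 2 = algebraMap K (Sep F) (algebraMap k[X] K ((C c * D).comp h)))
    (hrF : ∀ x : F, algebraMap F (Sep F) x ≠ r) :
    TateOverQ 2 k' (crvT (algebraMap k[X] K (a.comp h)) (algebraMap k[X] K (b.comp h))) r := by
  have h4 : (4 : k) ≠ 0 := by
    have : (4 : k) = 2 ^ 2 := by norm_num
    rw [this]
    exact pow_ne_zero 2 h2
  exact over_of hT h2 hb hd hNb hNd hO hO' hodd (fun π hπ hdv => hi π hπ (hdv.mul_right D))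
    (twist_main hT h2 hb hd hNb hNd hO hO' hD (mul_ne_zero h4 hc) hodd hi) hr hrF

end two

section dens

variable {k k' K F : Type} [Field k] [Field k'] [Algebra k k'] [Field K] [Algebra k[X] K]
    [Field F] [Algebra k'[X] F] [IsFractionRing k'[X] F] [Algebra K F]

/-- The Tate conjecture at 2 for the elliptic surface with generic fibre
`y² = x (x² + a(h(t)) x + b(h(t)))` over the curve `s ^ 2 = c D(h(t))`, if this curve is geometrically
irreducible, that is, if `c D(h(t))` is not a square in `F = k'(t)`. -/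
def TateOverH (k' K F : Type) {k : Type} [Field k] [Field k'] [Field K] [Algebra k[X] K]
    [Field F] [Algebra k'[X] F] [IsFractionRing k'[X] F] [Algebra K F] (a b D h : k[X]) (c : k) :
    Prop :=
  ∀ r : Sep F, r ^ 2 = algebraMap K (Sep F) (algebraMap k[X] K ((C c * D).comp h)) →
    (∀ x : F, algebraMap F (Sep F) x ≠ r) →
    TateOverQ 2 k' (crvT (algebraMap k[X] K (a.comp h)) (algebraMap k[X] K (b.comp h))) r

/-- The conditions on `a` and `b`. -/
def Generic {k : Type} [Field k] (a b : k[X]) : Prop :=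
  b ≠ 0 ∧ a ^ 2 - 4 * b ≠ 0 ∧ NotNorm b ∧ NotNorm (a ^ 2 - 4 * b) ∧ OnlyTrivial a b ∧
    OnlyTrivial (-2 * a) (a ^ 2 - 4 * b)

/-- The Tate conjecture at 2 for the elliptic surface over the hyperelliptic curve
`s ^ 2 = c D(h(t))` with generic fibre `y² = x (x² + a(h(t)) x + b(h(t)))`, for all the constants
`c ≠ 0` and all the polynomials `h` of odd degree such that the irreducible divisors of
`b (a² - 4 b)` remain irreducible after the substitution `t ↦ h(t)`, and such that either `h` is monic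
with integral coefficients or the irreducible divisors of `D` remain irreducible after `t ↦ h(t)`
(and such that `D(h(t))` is not a square in `k'(t)`, that is, the curve is geometrically
irreducible). -/
def BaseTM (k' K F : Type) {k : Type} [Field k] [NumberField k] [Field k'] [Field K]
    [Algebra k[X] K] [Field F] [Algebra k'[X] F] [IsFractionRing k'[X] F] [Algebra K F]
    (a b D : k[X]) : Prop :=
  ∀ (c : k) (h : k[X]), c ≠ 0 → Odd h.natDegree →
    (∀ π : k[X], Irreducible π → π ∣ b * (a ^ 2 - 4 * b) → Irreducible (π.comp h)) →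
    ((∃ g : (𝓞 k)[X], g.Monic ∧ h = g.map (algebraMap (𝓞 k) k)) ∨
      ∀ π : k[X], Irreducible π → π ∣ D → Irreducible (π.comp h)) →
    TateOverH k' K F a b D h c

/-- For almost all `D = D₁ ⋯ D_u`, `D_l` with integral coefficients and of degree at most `n l`, the
Tate conjecture at 2 holds over the curves `s ^ 2 = c D(h(t))` in the sense of `BaseTM`. -/
def MostBases (k' K F : Type) {k : Type} [Field k] [NumberField k] [Field k'] [Field K]
    [Algebra k[X] K] [Field F] [Algebra k'[X] F] [IsFractionRing k'[X] F] [Algebra K F]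
    {J : Type} [Fintype J] (B : Module.Basis J ℤ (𝓞 k)) (a b : k[X]) {u : ℕ} (n : Fin u → ℕ) :
    Prop :=
  ∀ η : ℝ, 0 < η → ∃ H0 : ℕ, ∀ H : ℕ, H0 ≤ H →
    (({x : (l : Fin u) → Fin (n l + 1) → 𝓞 k | (∀ l j t, |B.repr (x l j) t| ≤ (H : ℤ)) ∧
      ¬ BaseTM k' K F a b (∏ l, polA fun j => algebraMap (𝓞 k) k (x l j))}.ncard : ℕ) : ℝ) ≤
      η * (2 * H + 1) ^ (Fintype.card J * ∑ l, (n l + 1))

theorem baseTM_of [NumberField k] (hT : IsTower k k' K F) {a b D : k[X]} (hNb : NotNorm b)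
    (hNd : NotNorm (a ^ 2 - 4 * b)) (hO : OnlyTrivial a b)
    (hO' : OnlyTrivial (-2 * a) (a ^ 2 - 4 * b)) (hD : TateTM k' K F a b D) :
    BaseTM k' K F a b D := by
  intro c h hc hodd hi hcase r hr hrF
  have hb := Pool.Agent.R939.HI.ne_sq_of_notNorm hNb
  have hd := Pool.Agent.R939.HI.ne_sq_of_notNorm hNd
  have hb0 : b ≠ 0 := fun h => hb 0 0 (by rw [h]; simp)
  have hd0 : a ^ 2 - 4 * b ≠ 0 := fun h => hd 0 0 (by rw [h]; simp)
  exact over_of hT two_ne_zero hb0 hd0 hNb hNd hO hO' hodd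
    (fun π hπ hdv => ⟨hi π hπ hdv, (hi π hπ hdv).separable⟩)
    (hD (4 * c) h (mul_ne_zero (by norm_num) hc) hodd hi hcase) hr hrF

variable [NumberField k] {J : Type} [Fintype J] (B : Module.Basis J ℤ (𝓞 k))

/-- **Almost all hyperelliptic curves.** -/
theorem most_curves (hT : IsTower k k' K F) {a b : k[X]} (hNb : NotNorm b)
    (hNd : NotNorm (a ^ 2 - 4 * b))
    (hO : OnlyTrivial a b) (hO' : OnlyTrivial (-2 * a) (a ^ 2 - 4 * b)) {u : ℕ} {n : Fin u → ℕ}
    (hn : ∀ l, 1 ≤ n l) {η : ℝ} (hη : 0 < η) :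
    ∃ H0 : ℕ, ∀ H : ℕ, H0 ≤ H →
      (({x : (l : Fin u) → Fin (n l + 1) → 𝓞 k | (∀ l j t, |B.repr (x l j) t| ≤ (H : ℤ)) ∧
        ¬ BaseTM k' K F a b (∏ l, polA fun j => algebraMap (𝓞 k) k (x l j))}.ncard : ℕ) : ℝ) ≤
        η * (2 * H + 1) ^ (Fintype.card J * ∑ l, (n l + 1)) := by
  obtain ⟨H0, hH⟩ := mon_twists (k' := k') (K := K) (F := F) hT B hNb hNd hO hO' hn hη
  refine ⟨H0, fun H hHH => le_trans ?_ (hH H hHH)⟩
  have hfin : {x : (l : Fin u) → Fin (n l + 1) → 𝓞 k |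
      (∀ l j t, |B.repr (x l j) t| ≤ (H : ℤ)) ∧
        ¬ TateTM k' K F a b (∏ l, polA fun j => algebraMap (𝓞 k) k (x l j))}.Finite := by
    have h0 : {t : 𝓞 k | ∀ j, |B.repr t j| ≤ (H : ℤ)}.Finite := by
      have := Pool.Agent.Helper23K9.Q7.boxfin0 B H
      exact this
    refine Set.Finite.subset (Set.Finite.pi' fun l : Fin u =>
      Set.Finite.pi' fun _ : Fin (n l + 1) => h0) ?_
    rintro x ⟨h1, -⟩
    exact fun l j => h1 l j
  have hsub : {x : (l : Fin u) → Fin (n l + 1) → 𝓞 k |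
      (∀ l j t, |B.repr (x l j) t| ≤ (H : ℤ)) ∧
        ¬ BaseTM k' K F a b (∏ l, polA fun j => algebraMap (𝓞 k) k (x l j))} ⊆
      {x : (l : Fin u) → Fin (n l + 1) → 𝓞 k | (∀ l j t, |B.repr (x l j) t| ≤ (H : ℤ)) ∧
        ¬ TateTM k' K F a b (∏ l, polA fun j => algebraMap (𝓞 k) k (x l j))} := by
    rintro x ⟨h1, h2⟩
    exact ⟨h1, fun h3 => h2 (baseTM_of hT hNb hNd hO hO' h3)⟩
  exact_mod_cast Set.ncard_le_ncard hsub hfin

end dens

end Pool.Agent.Helper23K9.Q7
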